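import Pool.Agent.NUF.Gas.Uniq2

/-!
# A family without source terms vanishes

(the linear version of `NUGas.uniq`, for a fixed number `L` of lines)
-/

open Polynomial Filter Topology

namespace NUMv

open NUGas

variable {η : ℂ}

/-- the relations without source terms, `L` lines -/
structure Null (η : ℂ) (L : ℕ) (D : List ℂ → List ℂ → ℂ) : Prop where
  perm : ∀ {X X' : List ℂ} (Y : List ℂ), X.Perm X' → D X Y = D X' Y
  roles : ∀ X Y : List ℂ, D X Y = D Y X
  poly : ∀ X Y : List ℂ, Gen η X → Gen η Y → X.length + Y.length + 1 = L → ∃ Q : ℂ[X],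
    Q.natDegree ≤ 2 * (X.length + Y.length) ∧ Q.coeff (2 * (X.length + Y.length)) = 0 ∧
    Q.coeff 0 = 0 ∧ ∀ t, D (t :: X) Y = Q.eval t
  cross : ∀ (q : ℂ) (X Y : List ℂ), Gen η (q :: X) → Gen η Y → X.length + Y.length + 2 = L →
    D (η ^ 3 * q :: q :: X) Y = 0
  fuse : ∀ (q : ℂ) (X Y : List ℂ), Gen η (q :: X) → Gen η Y → X.length + Y.length + 2 = L →
    D (η ^ 2 * q :: q :: X) Y = 0
  joint : ∀ (X Y : List ℂ), Gen η X → Gen η Y → X.length + Y.length + 2 = L →
    Tendsto (fun T : ℝ => D ((T : ℂ) :: X) ((T : ℂ) :: Y) /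
      (T : ℂ) ^ (4 * (X.length + Y.length) + 2)) atTop (𝓝 0)

lemma Null.special {L : ℕ} {D : List ℂ → List ℂ → ℂ} (hη : η ^ 4 = -1) (h : Null η L D)
    {X Y : List ℂ} (hX : Gen η X) (hY : Gen η Y) (hL : X.length + Y.length + 1 = L)
    {x : ℂ} (hx : x ∈ X) {k : ℕ} (hk : k = 3 ∨ k = 5 ∨ k = 2 ∨ k = 6) :
    D (η ^ k * x :: X) Y = 0 := by
  obtain ⟨X', hX'⟩ : ∃ X', X.Perm (x :: X') := ⟨X.erase x, List.perm_cons_erase hx⟩
  have hg : Gen η (x :: X') := hX.perm hη hX'
  have hlen : X.length = X'.length + 1 := by rw [hX'.length_eq]; rfl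
  have e1 : D (η ^ k * x :: X) Y = D (η ^ k * x :: x :: X') Y := h.perm Y (hX'.cons _)
  have h8 := eta8 hη
  rcases hk with rfl | rfl | rfl | rfl
  · rw [e1, h.cross x X' Y hg hY (by omega)]
  · have hx3 : η ^ 3 * (η ^ 5 * x) = x := by
      rw [← mul_assoc, ← pow_add]; norm_num; rw [h8, one_mul]
    have hg5 := hg.scale hη 5
    rw [e1, h.perm Y (List.Perm.swap _ _ _)]
    have c1 := h.cross (η ^ 5 * x) X' Y hg5 hY (by omega)
    rw [hx3] at c1
    exact c1
  · rw [e1, h.fuse x X' Y hg hY (by omega)]
  · have hx3 : η ^ 2 * (η ^ 6 * x) = x := by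
      rw [← mul_assoc, ← pow_add]; norm_num; rw [h8, one_mul]
    have hg5 := hg.scale hη 6
    rw [e1, h.perm Y (List.Perm.swap _ _ _)]
    have c1 := h.fuse (η ^ 6 * x) X' Y hg5 hY (by omega)
    rw [hx3] at c1
    exact c1

lemma Null.diff_eq {L : ℕ} {D : List ℂ → List ℂ → ℂ} (hη : η ^ 4 = -1) (h : Null η L D)
    {X Y : List ℂ} (hX : Gen η X) (hY : Gen η Y) (hL : X.length + Y.length + 1 = L)
    (hle : Y.length ≤ X.length + 1) :
    ∃ c : ℂ, (Y.length ≤ X.length → c = 0) ∧
      ∀ t, D (t :: X) Y = c * (node η X).eval t := by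
  obtain ⟨d, hdeg, htop, hbot, hval⟩ := h.poly X Y hX hY hL
  have hroots : ∀ t ∈ rts η X, d.eval t = 0 := by
    intro t ht
    rcases mem_rts ht with rfl | ⟨x, hx, h0⟩
    · rw [← coeff_zero_eq_eval_zero]; exact hbot
    · obtain ⟨k, hk, rfl⟩ : ∃ k, (k = 3 ∨ k = 5 ∨ k = 2 ∨ k = 6) ∧ t = η ^ k * x := by
        rcases h0 with h | h | h | h
        · exact ⟨3, by simp, h⟩
        · exact ⟨5, by simp, h⟩
        · exact ⟨2, by simp, h⟩
        · exact ⟨6, by simp, h⟩
      rw [← hval, h.special hη hX hY hL hx hk]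
  obtain ⟨R, hR⟩ := node_dvd hη hX hroots
  rcases eq_or_ne d 0 with h0 | h0
  · exact ⟨0, fun _ => rfl, fun t => by rw [hval t, h0]; simp⟩
  · have hR0 : R ≠ 0 := by rintro rfl; rw [mul_zero] at hR; exact h0 hR
    have hlt : d.natDegree < 2 * (X.length + Y.length) := by
      refine lt_of_le_of_ne hdeg fun h => ?_
      apply h0
      rw [← leadingCoeff_eq_zero, leadingCoeff, h, htop]
    have hsum : d.natDegree = (4 * X.length + 1) + R.natDegree := by
      rw [hR, (node_monic X).natDegree_mul' hR0, node_natDegree]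
    have hR1 : R.natDegree = 0 := by omega
    have hc : R = C (R.coeff 0) := eq_C_of_natDegree_eq_zero hR1
    refine ⟨R.coeff 0, fun h => ?_, fun t => ?_⟩
    · exfalso; omega
    · rw [hval t, hR, eval_mul]
      rw [hc]; simp [mul_comm]

/-- **a family without source terms vanishes** -/
theorem Null.eq_zero {L : ℕ} {D : List ℂ → List ℂ → ℂ} (hη : η ^ 4 = -1) (h : Null η L D)
    (hL0 : 0 < L) : ∀ X Y : List ℂ, X.length + Y.length = L → Gen η X → Gen η Y → D X Y = 0 := by
  -- the case `|Y| < |X|`
  have key : ∀ X Y : List ℂ, X.length + Y.length = L → Y.length < X.length → Gen η X → Gen η Y →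
      D X Y = 0 := by
    intro X Y hn hlt hX hY
    rcases X with _ | ⟨p, X⟩
    · simp at hlt
    · simp only [List.length_cons] at hn hlt
      obtain ⟨c, hc, hv⟩ := h.diff_eq hη hX.tail hY (by omega) (by omega)
      have := hv p
      rw [hc (by omega), zero_mul] at this
      exact this
  intro X Y hn hX hY
  rcases lt_trichotomy Y.length X.length with hlt | heq | hgt
  · exact key X Y hn hlt hX hY
  · rcases X with _ | ⟨p, X⟩
    · simp only [List.length_nil] at heq hn; omega
    · rcases Y with _ | ⟨q, Y⟩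
      · simp at heq
      · simp only [List.length_cons] at hn heq
        have hlen : Y.length = X.length := by omega
        have A : ∀ q', Gen η (q' :: Y) → ∃ c : ℂ, ∀ t,
            D (t :: X) (q' :: Y) = c * (node η X).eval t := by
          intro q' hq'
          obtain ⟨c, _, hv⟩ := h.diff_eq hη hX.tail hq' (by simp; omega) (by simp; omega)
          exact ⟨c, hv⟩
        have B : ∀ p', Gen η (p' :: X) → ∃ c : ℂ, ∀ t,
            D (p' :: X) (t :: Y) = c * (node η Y).eval t := by
          intro p' hp'
          obtain ⟨c, _, hv⟩ := h.diff_eq hη hY.tail hp' (by simp; omega) (by simp; omega)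
          refine ⟨c, fun t => ?_⟩
          rw [h.roles]
          exact hv t
        obtain ⟨c, hc⟩ := A q hY
        have hnq := node_eval_ne hη hY
        have hnp := node_eval_ne hη hX
        set κ := c / (node η Y).eval q with hκ
        have main : ∀ p' q', Gen η (p' :: X) → Gen η (q' :: Y) →
            D (p' :: X) (q' :: Y) = κ * ((node η X).eval p' * (node η Y).eval q') := by
          intro p' q' hp' hq'
          obtain ⟨c', hc'⟩ := B p' hp'
          have e1 := hc p'
          have e2 := hc' q
          have e3 := hc' q'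
          rw [e3]
          rw [e1] at e2
          have : c' = κ * (node η X).eval p' := by
            rw [hκ]; field_simp; rw [mul_comm c', mul_comm] at *; linear_combination -e2
          rw [this]; ring
        have hj := h.joint X Y hX.tail hY.tail (by omega)
        have hl : Tendsto (fun T : ℝ => κ * (((node η X).eval (T : ℂ) / (T : ℂ) ^ (rts η X).length) *
            ((node η Y).eval (T : ℂ) / (T : ℂ) ^ (rts η Y).length))) atTop (𝓝 (κ * (1 * 1))) :=
          tendsto_const_nhds.mul ((tendsto_node _).mul (tendsto_node _))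
        have hκ0 : κ = 0 := by
          have hj' : Tendsto (fun T : ℝ => κ * (((node η X).eval (T : ℂ) /
              (T : ℂ) ^ (rts η X).length) *
              ((node η Y).eval (T : ℂ) / (T : ℂ) ^ (rts η Y).length))) atTop (𝓝 0) := by
            refine hj.congr' ?_
            filter_upwards [eventually_gen hη hX.tail, eventually_gen hη hY.tail,
              eventually_gt_atTop (0 : ℝ)] with T g1 g2 h0
            have hT' : (T : ℂ) ≠ 0 := by exact_mod_cast h0.ne'
            have := main T T g1 g2
            rw [this, length_rts, length_rts]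
            rw [show 4 * (X.length + Y.length) + 2 = (4 * X.length + 1) + (4 * Y.length + 1) by ring,
              pow_add]
            field_simp
          have := tendsto_nhds_unique hl hj'
          simpa using this
        have := main p q hX hY
        rw [hκ0, zero_mul] at this
        exact this
  · rw [h.roles]
    exact key Y X (by omega) hgt hY hX

end NUMv
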