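import Pool.Agent.NUF.Mv.JointL
import Pool.Agent.NUF.Mv.Vanish

/-!
# The relations for large values
-/

open Polynomial Filter Topology

noncomputable section

namespace NUMv

variable {U : ℕ → Set ℂ} {W : List ℂ → List ℂ → ℂ} {P : List ℂ → List ℂ → ℂ[X]}

/-- `e ^ (i π / 4)` -/
def eta : ℂ := Complex.exp (2 * Complex.I * el)

lemma eta_pow (k : ℕ) : eta ^ k = Complex.exp (-2 * Complex.I * (-(k * el))) := by
  rw [eta, ← Complex.exp_nat_mul]
  congr 1; ring

lemma eta4 : eta ^ 4 = -1 := by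
  rw [eta, ← Complex.exp_nat_mul, el]
  push_cast
  rw [show (4 : ℂ) * (2 * Complex.I * ((Real.pi : ℂ) / 8)) = Real.pi * Complex.I by ring,
    Complex.exp_pi_mul_I]

lemma eta8' : eta ^ 8 = 1 := NUGas.eta8 eta4

lemma exp_neg_el (j k : ℕ) (hjk : j + k = 8) :
    Complex.exp (-2 * Complex.I * (k * el)) = eta ^ j := by
  have h1 : eta ^ k * Complex.exp (-2 * Complex.I * (k * el)) = 1 := by
    rw [eta_pow, ← Complex.exp_add]
    rw [show -2 * Complex.I * (-(k * el)) + -2 * Complex.I * (k * el) = 0 by ring,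
      Complex.exp_zero]
  have h2 : eta ^ k * eta ^ j = 1 := by rw [← pow_add, add_comm, hjk, eta8']
  exact mul_left_cancel₀ (pow_ne_zero k (NUGas.eta_ne eta4)) (h1.trans h2.symm)

/-- the value of `cos 2z` divided by `s`, at large values -/
def pert (s a : ℂ) : ℂ := a + (4 * a)⁻¹ * s⁻¹ * s⁻¹

/-- the rapidity -/
def qq (s x : ℂ) : ℂ := Complex.I / 2 * Complex.log (2 * (s * x))

lemma cc_par {s x : ℂ} (hs : s ≠ 0) (hx : x ≠ 0) (c : ℂ) :
    cc (qq s x + c) = s * pert s (x * Complex.exp (-2 * Complex.I * c)) := by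
  have h1 : Complex.exp (-2 * Complex.I * (qq s x + c)) =
      2 * (s * x) * Complex.exp (-2 * Complex.I * c) := by
    rw [mul_add, Complex.exp_add, qq, exp_log_half (mul_ne_zero two_ne_zero (mul_ne_zero hs hx))]
  rw [cc_exp, h1, pert]
  have h3 := Complex.exp_ne_zero (-2 * Complex.I * c)
  field_simp
  ring

lemma cc_par0 {s x : ℂ} (hs : s ≠ 0) (hx : x ≠ 0) : cc (qq s x) = s * pert s x := by
  have := cc_par hs hx 0
  simpa using this

lemma cc_parm {s x : ℂ} (hs : s ≠ 0) (hx : x ≠ 0) (k : ℕ) :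
    cc (qq s x - k * el) = s * pert s (eta ^ k * x) := by
  rw [sub_eq_add_neg, cc_par hs hx, ← eta_pow, mul_comm x]

lemma cc_parp {s x : ℂ} (hs : s ≠ 0) (hx : x ≠ 0) (j k : ℕ) (hjk : j + k = 8) :
    cc (qq s x + k * el) = s * pert s (eta ^ j * x) := by
  rw [cc_par hs hx, exp_neg_el j k hjk, mul_comm x]

lemma ofReal_inv : Tendsto (fun R : ℝ => ((R : ℂ))⁻¹) atTop (𝓝 0) := by
  have : Tendsto (fun T : ℝ => ((T⁻¹ : ℝ) : ℂ)) atTop (𝓝 ((0 : ℝ) : ℂ)) :=
    (Complex.continuous_ofReal.tendsto 0).comp tendsto_inv_atTop_zero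
  simpa using this

lemma ofReal_ne : ∀ᶠ R : ℝ in atTop, (R : ℂ) ≠ 0 := by
  filter_upwards [eventually_gt_atTop (0 : ℝ)] with R hR
  exact_mod_cast hR.ne'

lemma tendsto_pert' (a : ℂ) : Tendsto (fun R : ℝ => pert R a) atTop (𝓝 a) := by
  have := (tendsto_const_nhds (x := a) (f := (atTop : Filter ℝ))).add
    (((tendsto_const_nhds (x := (4 * a)⁻¹)).mul ofReal_inv).mul ofReal_inv)
  simpa [pert] using this

lemma tendsto_prodR (g : ℂ → ℂ → ℂ) (g₀ : ℂ → ℂ) (e : ℕ) (L : List ℂ)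
    (hg : ∀ c ∈ L, Tendsto (fun R : ℝ => g R (R * c) / (R : ℂ) ^ e) atTop (𝓝 (g₀ c))) :
    Tendsto (fun R : ℝ => ((L.map ((R : ℂ) * ·)).map (g R)).prod / (R : ℂ) ^ (e * L.length))
      atTop (𝓝 (L.map g₀).prod) := by
  induction L with
  | nil => simp
  | cons a L ih =>
    have h1 := (hg a (by simp)).mul (ih (fun c hc => hg c (by simp [hc])))
    simp only [List.map_cons, List.prod_cons, List.length_cons]
    refine h1.congr (fun R => ?_)
    rw [Nat.mul_succ, Nat.add_comm, pow_add, mul_div_mul_comm]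

lemma prod_map_sq (L : List ℂ) (f : ℂ → ℂ) :
    (L.map (fun x => f x ^ 2)).prod = (L.map f).prod ^ 2 := by
  induction L with
  | nil => simp
  | cons a L ih => simp only [List.map_cons, List.prod_cons, ih, mul_pow]

lemma close {f : ℝ → ℂ} {D k : ℕ} (hDk : D < k) {a b : ℂ}
    (h1 : Tendsto (fun R : ℝ => f R / (R : ℂ) ^ D) atTop (𝓝 a))
    (h2 : Tendsto (fun R : ℝ => f R / (R : ℂ) ^ k) atTop (𝓝 b)) : b = 0 := by
  have h3 := h1.mul (ofReal_inv.pow (k - D))
  rw [zero_pow (by omega), mul_zero] at h3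
  refine tendsto_nhds_unique h2 (h3.congr' ?_)
  filter_upwards [ofReal_ne] with R hR
  have e : (R : ℂ) ^ k = (R : ℂ) ^ D * (R : ℂ) ^ (k - D) := by rw [← pow_add]; congr 1; omega
  rw [e, inv_pow]
  field_simp

/-- the limit lemma, real parameter -/
theorem Near.limR (h : Near U W P) {x : ℝ → List ℂ} {x₀ : List ℂ} (y : List ℂ)
    (hxl : ∀ R, (x R).length = x₀.length)
    (hx : Tendsto (fun R => pt (x R ++ y)) atTop (𝓝 (pt (x₀ ++ y)))) (D : ℕ)
    (hD : ∀ k, D < k → ∀ A B : List ℂ, A.length + B.length = x₀.length + y.length →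
      (h.sc A B).coeff k = 0) :
    Tendsto (fun R : ℝ => h.Wt ((x R).map ((R : ℂ) * ·)) (y.map ((R : ℂ) * ·)) / (R : ℂ) ^ D)
      atTop (𝓝 ((h.sc x₀ y).coeff D)) :=
  h.lim ofReal_ne ofReal_inv hxl (fun _ => rfl) hx D
    (fun k hk => Eventually.of_forall fun R => hD k hk _ _ (by rw [hxl]))

lemma Near.lim_self (h : Near U W P) {n : ℕ} (hV : h.Van n) (A B : List ℂ)
    (hn : A.length + B.length = n) :
    Tendsto (fun R : ℝ => h.Wt (A.map ((R : ℂ) * ·)) (B.map ((R : ℂ) * ·)) / (R : ℂ) ^ dg n)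
      atTop (𝓝 (h.Wd A B)) := by
  have := h.limR (x := fun _ => A) (x₀ := A) B (fun _ => rfl) (tendsto_pt_const _) (dg n)
    (fun k hk A' B' hl => hV A' B' (by omega) k hk)
  rw [Near.Wd, hn]
  exact this

lemma tendsto_lin (a c : ℂ) :
    Tendsto (fun R : ℝ => ((R : ℂ) * c + a) / (R : ℂ) ^ 1) atTop (𝓝 c) := by
  have := (tendsto_const_nhds (x := c) (f := (atTop : Filter ℝ))).add
    ((tendsto_const_nhds (x := a)).mul ofReal_inv)
  rw [mul_zero, add_zero] at this
  refine this.congr' ?_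
  filter_upwards [ofReal_ne] with R hR
  field_simp

lemma trivF_lim (L : List ℂ) :
    Tendsto (fun R : ℝ => trivF (L.map ((R : ℂ) * ·)) / (R : ℂ) ^ L.length) atTop
      (𝓝 (L.map (fun c => c)).prod) := by
  have := tendsto_prodR (fun _ c => c + kc 1) (fun c => c) 1 L (fun c _ => tendsto_lin _ c)
  rw [one_mul] at this
  exact this

/-- **the trivial line**, large values -/
lemma Near.rel_triv (h : Near U W P) {n : ℕ} (hV : h.Van n) (A B : List ℂ)
    (hn : A.length + B.length = n) :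
    Tendsto (fun R : ℝ => h.Wt (kc 3 :: A.map ((R : ℂ) * ·)) (B.map ((R : ℂ) * ·)) /
      (R : ℂ) ^ dg (n + 1)) atTop
      (𝓝 (((A.map (fun x => x ^ 2)).prod * (B.map (fun x => x ^ 2)).prod) * h.Wd A B)) := by
  have h1 := ((trivF_lim (A ++ B)).pow 2).mul (h.lim_self hV A B hn)
  have e1 : ((A ++ B).map (fun c => c)).prod ^ 2 =
      (A.map (fun x => x ^ 2)).prod * (B.map (fun x => x ^ 2)).prod := by
    rw [List.map_append, List.prod_append, mul_pow, ← prod_map_sq, ← prod_map_sq]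
  rw [e1] at h1
  refine h1.congr' ?_
  filter_upwards [ofReal_ne] with R hR
  rw [h.wt_triv, ← List.map_append, dg_succ, List.length_append, hn, pow_add, div_pow, ← pow_mul]
  rw [mul_comm n 2]
  field_simp

/-- **crossing**, large values -/
lemma Near.rel_cross (h : Near U W P) {n : ℕ} (hV : h.Van n) {x : ℂ} (hx : x ≠ 0)
    (A B : List ℂ) (hn : A.length + B.length = n) :
    Tendsto (fun R : ℝ => h.Wt (R * pert R (eta ^ 3 * x) :: R * pert R x :: A.map ((R : ℂ) * ·))
      (B.map ((R : ℂ) * ·)) / (R : ℂ) ^ dg (n + 2)) atTop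
      (𝓝 ((2 - eta + eta ^ 3) * eta ^ 3 * x ^ 2 *
        ((A.map (fun y => ((y + eta * x) * (y + eta ^ 2 * x)) ^ 2)).prod *
         (B.map (fun y => ((y + eta * x) * (y + eta ^ 2 * x)) ^ 2)).prod) * h.Wd A B)) := by
  have h0 : Tendsto (fun R : ℝ => (R * pert R (eta ^ 3 * x) + R * pert R x + (kc 1 - kc 3)) /
      (R : ℂ) ^ 1) atTop (𝓝 (eta ^ 3 * x + x)) := by
    have := ((tendsto_pert' (eta ^ 3 * x)).add (tendsto_pert' x)).add
      ((tendsto_const_nhds (x := kc 1 - kc 3)).mul ofReal_inv)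
    rw [mul_zero, add_zero] at this
    refine this.congr' ?_
    filter_upwards [ofReal_ne] with R hR
    field_simp
  have h1 := tendsto_prodR (fun s c => (c - s * pert s (eta ^ 5 * x)) *
    (c - s * pert s (eta ^ 6 * x))) (fun y => (y + eta * x) * (y + eta ^ 2 * x)) 2 (A ++ B)
    (fun c _ => by
      have := (((tendsto_const_nhds (x := c)).sub (tendsto_pert' (eta ^ 5 * x))).mul
        ((tendsto_const_nhds (x := c)).sub (tendsto_pert' (eta ^ 6 * x))))
      have e5 : eta ^ 5 = -eta := by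
        rw [show (5 : ℕ) = 4 + 1 from rfl, pow_succ, eta4]; ring
      have e6 : eta ^ 6 = -eta ^ 2 := by
        rw [show (6 : ℕ) = 4 + 2 from rfl, pow_add, eta4]; ring
      rw [show (c - eta ^ 5 * x) * (c - eta ^ 6 * x) = (c + eta * x) * (c + eta ^ 2 * x) by
        rw [e5, e6]; ring] at this
      refine this.congr' ?_
      filter_upwards [ofReal_ne] with R hR
      field_simp)
  have h2 := ((h0.mul h1).pow 2).mul (h.lim_self hV A B hn)
  have e2 : ((eta ^ 3 * x + x) * ((A ++ B).map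
      (fun y => (y + eta * x) * (y + eta ^ 2 * x))).prod) ^ 2 =
      (2 - eta + eta ^ 3) * eta ^ 3 * x ^ 2 *
        ((A.map (fun y => ((y + eta * x) * (y + eta ^ 2 * x)) ^ 2)).prod *
         (B.map (fun y => ((y + eta * x) * (y + eta ^ 2 * x)) ^ 2)).prod) := by
    rw [prod_map_sq A (fun y => (y + eta * x) * (y + eta ^ 2 * x)),
      prod_map_sq B (fun y => (y + eta * x) * (y + eta ^ 2 * x)), List.map_append,
      List.prod_append]
    linear_combination (eta ^ 2 * 0 + 1) * x ^ 2 * (((A.map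
      (fun y => (y + eta * x) * (y + eta ^ 2 * x))).prod *
      (B.map (fun y => (y + eta * x) * (y + eta ^ 2 * x))).prod) ^ 2) * eta4
  rw [e2] at h2
  refine h2.congr' ?_
  filter_upwards [ofReal_ne] with R hR
  have h3 := h.wt_cross (qq R x) (A.map ((R : ℂ) * ·)) (B.map ((R : ℂ) * ·))
  have c3 := cc_parm hR hx 3
  have c3' := cc_parp hR hx 5 3 (by norm_num)
  have c6 := cc_parm hR hx 6
  push_cast at c3 c3' c6
  rw [crossF, c3, cc_par0 hR hx, c3', c6] at h3
  rw [h3, ← List.map_append, dg_succ2, List.length_append, hn,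
    show dg n + (4 * n + 2) = (1 + 2 * n) * 2 + dg n by ring,
    pow_add (R : ℂ) ((1 + 2 * n) * 2) (dg n), pow_mul (R : ℂ) (1 + 2 * n) 2,
    pow_add (R : ℂ) 1 (2 * n)]
  have hp1 : (R : ℂ) ^ dg n ≠ 0 := pow_ne_zero _ hR
  have hp2 : (R : ℂ) ^ (2 * n) ≠ 0 := pow_ne_zero _ hR
  have hp3 : (R : ℂ) ^ 1 ≠ 0 := pow_ne_zero _ hR
  rw [← mul_div_mul_comm, div_pow, ← mul_div_mul_comm]

/-- **fusion**, large values -/
lemma Near.rel_fuse (h : Near U W P) {n : ℕ} (hV : h.Van (n + 1)) {t : ℂ} (ht : t ≠ 0)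
    (A B : List ℂ) (hn : A.length + B.length = n) :
    Tendsto (fun R : ℝ => h.Wt (R * pert R (eta ^ 2 * t) :: R * pert R t :: A.map ((R : ℂ) * ·))
      (B.map ((R : ℂ) * ·)) / (R : ℂ) ^ dg (n + 2)) atTop
      (𝓝 (2 * (eta * t) ^ 2 *
        ((A.map (fun y => (y + eta * t) ^ 2)).prod *
         (B.map (fun y => (y + eta * t) ^ 2)).prod) * h.Wd (eta * t :: A) B)) := by
  set x := eta ^ 2 * t with hxdef
  have hx : x ≠ 0 := mul_ne_zero (pow_ne_zero _ (NUGas.eta_ne eta4)) ht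
  have ex6 : eta ^ 6 * x = t := by
    rw [hxdef, ← mul_assoc, ← pow_add]
    norm_num
    rw [eta8', one_mul]
  have ex7 : eta ^ 7 * x = eta * t := by
    rw [hxdef, ← mul_assoc, ← pow_add, show 7 + 2 = 8 + 1 from rfl, pow_succ, eta8', one_mul]
  have hrt : rt ^ 2 = 2 := by
    rw [rt, ← Complex.ofReal_pow, Real.sq_sqrt (by norm_num)]; norm_num
  have h0 : Tendsto (fun R : ℝ => rt * (R * pert R (eta * t) + kc 3) /
      (R : ℂ) ^ 1) atTop (𝓝 (rt * (eta * t))) := by
    have := (tendsto_const_nhds (x := rt)).mul ((tendsto_pert' (eta * t)).add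
      ((tendsto_const_nhds (x := kc 3)).mul ofReal_inv))
    rw [mul_zero, add_zero] at this
    refine this.congr' ?_
    filter_upwards [ofReal_ne] with R hR
    field_simp
  have h1 := tendsto_prodR (fun s c => s * pert s (eta * t) + c) (fun y => y + eta * t) 1 (A ++ B)
    (fun c _ => by
      have := (tendsto_pert' (eta * t)).add (tendsto_const_nhds (x := c))
      rw [add_comm (eta * t) c] at this
      refine this.congr' ?_
      filter_upwards [ofReal_ne] with R hR
      field_simp)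
  have h1' : Tendsto (fun R : ℝ => h.Wt (R * pert R (eta * t) :: A.map ((R : ℂ) * ·))
      (B.map ((R : ℂ) * ·)) / (R : ℂ) ^ dg (n + 1)) atTop (𝓝 (h.Wd (eta * t :: A) B)) := by
    have := h.limR (x := fun R => pert R (eta * t) :: A) (x₀ := eta * t :: A) B
      (fun _ => by simp) (tendsto_pt_cons (tendsto_pert' _) (tendsto_pt_const _)) (dg (n + 1))
      (fun k hk A' B' hl => hV A' B' (by rw [hl, List.length_cons]; omega) k hk)
    rw [Near.Wd, show (eta * t :: A).length + B.length = n + 1 by rw [List.length_cons]; omega]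
    exact this
  have h2 := ((h0.mul h1).pow 2).mul h1'
  have e2 : (rt * (eta * t) * ((A ++ B).map (fun y => y + eta * t)).prod) ^ 2 =
      2 * (eta * t) ^ 2 * ((A.map (fun y => (y + eta * t) ^ 2)).prod *
         (B.map (fun y => (y + eta * t) ^ 2)).prod) := by
    rw [prod_map_sq A (fun y => y + eta * t), prod_map_sq B (fun y => y + eta * t),
      List.map_append, List.prod_append]
    linear_combination (eta * t * ((A.map (fun y => y + eta * t)).prod *
      (B.map (fun y => y + eta * t)).prod)) ^ 2 * hrt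
  rw [e2] at h2
  refine h2.congr' ?_
  filter_upwards [ofReal_ne] with R hR
  have h3 := h.wt_fuse (qq R x) (A.map ((R : ℂ) * ·)) (B.map ((R : ℂ) * ·))
  have c2 := cc_parp hR hx 6 2 (by norm_num)
  have c1 := cc_parp hR hx 7 1 (by norm_num)
  push_cast at c2 c1
  rw [one_mul] at c1
  rw [ex6] at c2
  rw [ex7] at c1
  rw [fuseF, c2, cc_par0 hR hx, c1] at h3
  rw [h.wt_perm _ (List.Perm.swap (R * pert R t) (R * pert R x) _), h3, ← List.map_append,
    show dg (n + 2) = (1 + n) * 2 + dg (n + 1) by rw [dg_succ (n + 1)]; ring,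
    List.length_append, hn, pow_add (R : ℂ) ((1 + n) * 2) (dg (n + 1)),
    pow_mul (R : ℂ) (1 + n) 2, pow_add (R : ℂ) 1 n, one_mul]
  rw [← mul_div_mul_comm, div_pow, ← mul_div_mul_comm]

end NUMv

end
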