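import Pool.Agent.NUF.Mv.Glob

/-!
# Homogeneous components and limits
-/

open Polynomial Filter Topology

noncomputable section

namespace NUMv

/-- the variable `k` gets the weight `w k` -/
def sw (w : ℕ → ℕ) : MvPolynomial ℕ ℂ →ₐ[ℂ] (MvPolynomial ℕ ℂ)[X] :=
  MvPolynomial.aeval (fun k : ℕ => Polynomial.C (MvPolynomial.X k) * Polynomial.X ^ w k)

/-- the polynomial `s ↦ F (s ^ w k * x k)` -/
def swp (w : ℕ → ℕ) (F : MvPolynomial ℕ ℂ) (x : ℕ → ℂ) : ℂ[X] :=
  (sw w F).map (MvPolynomial.eval x)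

lemma swp_eval (w : ℕ → ℕ) (F : MvPolynomial ℕ ℂ) (x : ℕ → ℂ) (s : ℂ) :
    (swp w F x).eval s = MvPolynomial.eval (fun k => s ^ w k * x k) F := by
  have h : (MvPolynomial.eval (fun k => s ^ w k * x k) : MvPolynomial ℕ ℂ →+* ℂ) =
      (Polynomial.evalRingHom s).comp
        ((Polynomial.mapRingHom (MvPolynomial.eval x)).comp
          (sw w : MvPolynomial ℕ ℂ →+* _)) := by
    refine MvPolynomial.ringHom_ext (fun a => ?_) (fun k => ?_)
    · simp [sw, MvPolynomial.algebraMap_eq, Polynomial.algebraMap_apply]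
    · simp only [MvPolynomial.eval_X, RingHom.coe_comp, RingHom.coe_coe, Function.comp_apply, sw,
        MvPolynomial.aeval_X, Polynomial.coe_mapRingHom, Polynomial.coe_evalRingHom,
        Polynomial.map_mul, Polynomial.map_C, Polynomial.map_pow, Polynomial.map_X,
        Polynomial.eval_mul, Polynomial.eval_C, Polynomial.eval_pow, Polynomial.eval_X]
      ring
  have := congrArg (fun f : MvPolynomial ℕ ℂ →+* ℂ => f F) h
  simpa [swp] using this.symm

lemma swp_coeff (w : ℕ → ℕ) (F : MvPolynomial ℕ ℂ) (x : ℕ → ℂ) (k : ℕ) :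
    (swp w F x).coeff k = MvPolynomial.eval x ((sw w F).coeff k) := by
  simp [swp]

lemma swp_natDegree (w : ℕ → ℕ) (F : MvPolynomial ℕ ℂ) (x : ℕ → ℂ) :
    (swp w F x).natDegree ≤ (sw w F).natDegree := Polynomial.natDegree_map_le

lemma tendsto_eval {ι : Type*} {l : Filter ι} {x : ι → ℕ → ℂ} {x₀ : ℕ → ℂ}
    (hx : Tendsto x l (𝓝 x₀)) (G : MvPolynomial ℕ ℂ) :
    Tendsto (fun i => MvPolynomial.eval (x i) G) l (𝓝 (MvPolynomial.eval x₀ G)) :=
  ((MvPolynomial.continuous_eval G).tendsto x₀).comp hx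

/-- **the limit lemma** -/
theorem lim_swp {ι : Type*} {l : Filter ι} {s : ι → ℂ} (hs0 : ∀ᶠ i in l, s i ≠ 0)
    (hs : Tendsto (fun i => (s i)⁻¹) l (𝓝 0)) {x : ι → ℕ → ℂ} {x₀ : ℕ → ℂ}
    (hx : Tendsto x l (𝓝 x₀)) (w : ℕ → ℕ) (F : MvPolynomial ℕ ℂ) (D : ℕ)
    (hD : ∀ k, D < k → ∀ᶠ i in l, (swp w F (x i)).coeff k = 0) :
    Tendsto (fun i => MvPolynomial.eval (fun k => s i ^ w k * x i k) F / s i ^ D) l
      (𝓝 ((swp w F x₀).coeff D)) := by
  set K := max (sw w F).natDegree D + 1 with hK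
  have h1 : ∀ i, MvPolynomial.eval (fun k => s i ^ w k * x i k) F / s i ^ D =
      ∑ k ∈ Finset.range K, (swp w F (x i)).coeff k * s i ^ k / s i ^ D := by
    intro i
    rw [← swp_eval, Polynomial.eval_eq_sum_range' (n := K), Finset.sum_div]
    have := swp_natDegree w F (x i)
    omega
  have h2 : ∀ k ∈ Finset.range K, Tendsto (fun i => (swp w F (x i)).coeff k * s i ^ k / s i ^ D) l
      (𝓝 (if k = D then (swp w F x₀).coeff D else 0)) := by
    intro k _
    rcases lt_trichotomy k D with hk | hk | hk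
    · rw [if_neg hk.ne]
      have h3 : Tendsto (fun i => (swp w F (x i)).coeff k * ((s i)⁻¹) ^ (D - k)) l
          (𝓝 ((swp w F x₀).coeff k * 0 ^ (D - k))) := by
        refine Tendsto.mul ?_ (hs.pow _)
        simp only [swp_coeff]
        exact tendsto_eval hx _
      rw [zero_pow (by omega), mul_zero] at h3
      refine h3.congr' ?_
      filter_upwards [hs0] with i hi
      have e : s i ^ D = s i ^ k * s i ^ (D - k) := by rw [← pow_add]; congr 1; omega
      rw [e, mul_div_assoc, inv_pow]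
      congr 1
      field_simp
    · subst hk
      rw [if_pos rfl]
      have h3 : Tendsto (fun i => (swp w F (x i)).coeff k) l (𝓝 ((swp w F x₀).coeff k)) := by
        simp only [swp_coeff]
        exact tendsto_eval hx _
      refine h3.congr' ?_
      filter_upwards [hs0] with i hi
      field_simp
    · rw [if_neg hk.ne']
      refine tendsto_const_nhds.congr' ?_
      filter_upwards [hD k hk] with i hi
      rw [hi]; simp
  have h4 := tendsto_finsetSum (Finset.range K) h2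
  rw [Finset.sum_ite_eq' (Finset.range K) D, if_pos (by simp [hK])] at h4
  refine h4.congr (fun i => (h1 i).symm)

/-! ### all variables -/

/-- `s ↦ F (s L)` -/
def scp (F : MvPolynomial ℕ ℂ) (L : List ℂ) : ℂ[X] := swp (fun _ => 1) F (pt L)

lemma pt_map (s : ℂ) (L : List ℂ) : pt (L.map (s * ·)) = fun k => s ^ 1 * pt L k := by
  funext k
  simp only [pt, List.getD_eq_getElem?_getD, List.getElem?_map, pow_one]
  cases L[k]? <;> simp

lemma scp_eval (F : MvPolynomial ℕ ℂ) (L : List ℂ) (s : ℂ) :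
    (scp F L).eval s = ev (L.map (s * ·)) F := by
  rw [scp, swp_eval, ev, pt_map]

lemma scp_coeff (F : MvPolynomial ℕ ℂ) (L : List ℂ) (k : ℕ) :
    (scp F L).coeff k = ev L ((sw (fun _ => 1) F).coeff k) := swp_coeff _ _ _ _

lemma tendsto_pt_cons {ι : Type*} {l : Filter ι} {a : ι → ℂ} {a₀ : ℂ} (ha : Tendsto a l (𝓝 a₀))
    {L : ι → List ℂ} {L₀ : List ℂ} (hL : Tendsto (fun i => pt (L i)) l (𝓝 (pt L₀))) :
    Tendsto (fun i => pt (a i :: L i)) l (𝓝 (pt (a₀ :: L₀))) := by
  rw [tendsto_pi_nhds] at hL ⊢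
  intro k
  cases k with
  | zero => simpa using ha
  | succ k => simpa using hL k

theorem lim_scp {ι : Type*} {l : Filter ι} {s : ι → ℂ} (hs0 : ∀ᶠ i in l, s i ≠ 0)
    (hs : Tendsto (fun i => (s i)⁻¹) l (𝓝 0)) {x : ι → List ℂ} {x₀ : List ℂ}
    (hx : Tendsto (fun i => pt (x i)) l (𝓝 (pt x₀))) (F : MvPolynomial ℕ ℂ) (D : ℕ)
    (hD : ∀ k, D < k → ∀ᶠ i in l, (scp F (x i)).coeff k = 0) :
    Tendsto (fun i => ev ((x i).map (s i * ·)) F / s i ^ D) l (𝓝 ((scp F x₀).coeff D)) := by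
  have := lim_swp hs0 hs hx (fun _ => 1) F D hD
  simp only [ev, pt_map]
  exact this

end NUMv

end
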