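import Pool.Agent.NUF.Mv.Rel

/-!
# The degree of the strip function

All homogeneous components of degree `> L (L - 1)` vanish (`L` lines).
-/

open Polynomial Filter Topology

noncomputable section

namespace NUMv

variable {ν : ℂ} {U : ℕ → Set ℂ} {W : List ℂ → List ℂ → ℂ} {P : List ℂ → List ℂ → ℂ[X]}

lemma VV_scale (ν : ℂ) (n : ℕ) (s a b : ℂ) :
    VV ν n (s * a) (s * b) = s ^ (4 * n + 2) * VV ν n a b := by
  unfold VV
  have : s ^ (4 * n + 2) = (s ^ 2) ^ (2 * n) * s ^ 2 := by
    rw [← pow_mul, ← pow_add]; congr 1; ring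
  rw [this, show s * a * (s * b) = s ^ 2 * (a * b) by ring, mul_pow (s ^ 2)]
  ring

/-- two far lines -/
theorem Near.sc_joint (h : Near U W P) (hJ : h.Joint ν) (a b T : ℂ) (A B : List ℂ) :
    h.sc (T * a :: A) (T * b :: B) =
      ∑ N ∈ Finset.range (4 * (A.length + B.length) + 2), C (T ^ N) *
        scp ((sw w2 (h.F2 A.length B.length)).coeff N) (a :: b :: (A ++ B)) +
      C (T ^ (4 * (A.length + B.length) + 2) * VV ν (A.length + B.length) a b) *
        (X ^ (4 * (A.length + B.length) + 2) * h.sc A B) := by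
  refine Polynomial.funext fun s => ?_
  have hlA : (A.map (s * ·)).length = A.length := List.length_map _
  have hlB : (B.map (s * ·)).length = B.length := List.length_map _
  have hc := h.comp2 hJ (A.map (s * ·)) (B.map (s * ·))
  rw [hlA, hlB] at hc
  have e0 : h.Wt (s * (T * a) :: A.map (s * ·)) (s * (T * b) :: B.map (s * ·)) =
      (swp w2 (h.F2 A.length B.length)
        (pt (s * a :: s * b :: (A.map (s * ·) ++ B.map (s * ·))))).eval T := by
    rw [swp_eval, w2_scale, ← h.ev_F2, hlA, hlB, ev]
    congr 3
    ring_nf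
  rw [h.sc_eval, List.map_cons, List.map_cons, e0, Polynomial.eval_eq_sum_range'
    (n := 4 * (A.length + B.length) + 2 + 1), Finset.sum_range_succ, hc.2, eval_add,
    Polynomial.eval_finsetSum, eval_mul, eval_C, eval_mul, eval_pow, eval_X, h.sc_eval, VV_scale]
  · congr 1
    · refine Finset.sum_congr rfl fun N _ => ?_
      rw [swp_coeff, eval_mul, eval_C, scp_eval, ev, mul_comm]
      simp only [List.map_cons, List.map_append]
    · ring
  · rw [Nat.lt_succ_iff, Polynomial.natDegree_le_iff_coeff_eq_zero]
    intro N hN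
    exact hc.1 N hN _ _

lemma tendsto_pow_div {N M : ℕ} (h : N < M) :
    Tendsto (fun T : ℝ => (T : ℂ) ^ N / (T : ℂ) ^ M) atTop (𝓝 0) := by
  have h3 := ofReal_inv.pow (M - N)
  rw [zero_pow (by omega)] at h3
  refine h3.congr' ?_
  filter_upwards [ofReal_ne] with R hR
  have e : (R : ℂ) ^ M = (R : ℂ) ^ N * (R : ℂ) ^ (M - N) := by rw [← pow_add]; congr 1; omega
  rw [e, inv_pow]
  field_simp

/-- **two far lines**, large values -/
theorem Near.lim_joint (h : Near U W P) (hJ : h.Joint ν) (a b : ℂ) (A B : List ℂ) (k : ℕ) :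
    Tendsto (fun T : ℝ => (h.sc (a * T :: A) (b * T :: B)).coeff k /
      (T : ℂ) ^ (4 * (A.length + B.length) + 2)) atTop
      (𝓝 (VV ν (A.length + B.length) a b *
        (X ^ (4 * (A.length + B.length) + 2) * h.sc A B).coeff k)) := by
  set n := A.length + B.length with hn
  set e : ℕ → ℂ := fun N =>
    (scp ((sw w2 (h.F2 A.length B.length)).coeff N) (a :: b :: (A ++ B))).coeff k with he
  have h1 : Tendsto (fun T : ℝ => ∑ N ∈ Finset.range (4 * n + 2),
      (T : ℂ) ^ N / (T : ℂ) ^ (4 * n + 2) * e N + VV ν n a b *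
        (X ^ (4 * n + 2) * h.sc A B).coeff k) atTop
      (𝓝 (∑ N ∈ Finset.range (4 * n + 2), 0 * e N +
        VV ν n a b * (X ^ (4 * n + 2) * h.sc A B).coeff k)) := by
    refine Tendsto.add_const _ (tendsto_finsetSum _ fun N hN => ?_)
    exact (tendsto_pow_div (Finset.mem_range.1 hN)).mul_const _
  simp only [zero_mul, Finset.sum_const_zero, zero_add] at h1
  refine h1.congr' ?_
  filter_upwards [ofReal_ne] with T hT
  rw [mul_comm a, mul_comm b, h.sc_joint hJ, ← hn, Polynomial.coeff_add, Polynomial.finsetSum_coeff,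
    Polynomial.coeff_C_mul, add_div, Finset.sum_div]
  congr 1
  · refine Finset.sum_congr rfl fun N _ => ?_
    rw [Polynomial.coeff_C_mul]
    simp only [he]
    ring
  · have := pow_ne_zero (4 * n + 2) hT
    field_simp

/-! ### generic lists -/

/-- positive real numbers -/
def Pos : Set ℂ := (fun x : ℝ => (x : ℂ)) '' Set.Ioi 0

lemma Pos_inf : Pos.Infinite := (Set.Ioi_infinite (0 : ℝ)).image Complex.ofReal_injective.injOn

lemma gen_pos {L : List ℂ} (hL : ∀ c ∈ L, c ∈ Pos) (hn : L.Nodup) : NUGas.Gen eta L := by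
  refine ⟨fun x hx h0 => ?_, ?_⟩
  · obtain ⟨r, hr, rfl⟩ := hL x hx
    have hr' : (0 : ℝ) < r := hr
    simp only [Complex.ofReal_eq_zero] at h0
    linarith
  · rw [List.Nodup, List.pairwise_iff_forall_sublist] at hn
    rw [List.pairwise_iff_forall_sublist]
    intro a b hab k hk
    have hne := hn hab
    have ha := hL a (hab.subset (by simp))
    have hb := hL b (hab.subset (by simp))
    obtain ⟨r, hr, rfl⟩ := ha
    obtain ⟨s, hs, rfl⟩ := hb
    have hr' : (0 : ℝ) < r := hr
    have hs' : (0 : ℝ) < s := hs
    apply hne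
    have := congrArg norm hk
    simp only [norm_mul, norm_pow, NUGas.norm_eta eta4, one_pow, one_mul, Complex.norm_real,
      Real.norm_of_nonneg hr'.le, Real.norm_of_nonneg hs'.le] at this
    rw [this]

lemma Near.van_ext (h : Near U W P) {L k : ℕ} (hz : ∀ A B : List ℂ, A.length + B.length = L →
    NUGas.Gen eta A → NUGas.Gen eta B → (h.sc A B).coeff k = 0) (A B : List ℂ)
    (hl : A.length + B.length = L) : (h.sc A B).coeff k = 0 := by
  rw [Near.sc, scp_coeff]
  refine PF.ext (n := A.length + B.length) Pos_inf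
      (PF.ev _ ((sw (fun _ => 1) (h.F A.length B.length)).coeff k)) (PF.const _ 0)
      (fun L' hL hLU hLn => ?_) (A ++ B) (by simp)
  obtain ⟨A', B', hA, hB, rfl⟩ := split_len hL
  have h1 := hz A' B' (by omega)
    (gen_pos (fun c hc => hLU c (List.mem_append_left _ hc)) (List.nodup_append.1 hLn).1)
    (gen_pos (fun c hc => hLU c (List.mem_append_right _ hc)) (List.nodup_append.1 hLn).2.1)
  rw [Near.sc, scp_coeff, hA, hB] at h1
  exact h1

lemma Near.van_zero (h : Near U W P) : h.Van 0 := by
  intro A B hl k hk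
  have hA : A = [] := List.length_eq_zero_iff.1 (by omega)
  have hB : B = [] := List.length_eq_zero_iff.1 (by omega)
  subst hA hB
  have : h.sc [] [] = C 1 := Polynomial.funext fun s => by
    rw [h.sc_eval]; simpa using h.wt_nil
  rw [this, Polynomial.coeff_C, if_neg]
  rintro rfl
  simp [dg] at hk

/-- one step of the downward induction -/
lemma Near.null (h : Near U W P) (hJ : h.Joint ν) {L k : ℕ} (ih : ∀ n, n < L → h.Van n) (hk : dg L < k)
    (above : ∀ j, k < j → ∀ A B : List ℂ, A.length + B.length = L → (h.sc A B).coeff j = 0) :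
    Null eta L (fun A B => (h.sc A B).coeff k) where
  perm := fun Y hp => by beta_reduce; rw [h.sc_perm Y hp]
  roles := fun X Y => by beta_reduce; rw [h.sc_roles]
  poly := by
    intro X Y _ _ hl
    obtain ⟨Q, h1, h2, h3⟩ := h.sc_poly X Y k
    have hd : dg L = dg (X.length + Y.length) + 2 * (X.length + Y.length) := by
      rw [← hl, dg_succ]
    refine ⟨Q, h1, ?_, ?_, h3⟩
    · rw [h2, Polynomial.coeff_X_pow_mul', if_pos (by omega)]
      exact ih _ (by omega) X Y rfl _ (by omega)
    · rw [Polynomial.coeff_zero_eq_eval_zero, ← h3]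
      have hV := ih (X.length + Y.length) (by omega)
      have l1 := h.rel_triv hV X Y rfl
      have l2 := h.limR (x := fun R => kc 3 * (R : ℂ)⁻¹ :: X) (x₀ := 0 :: X) Y
        (fun _ => by simp) (tendsto_pt_cons (by
          have := (tendsto_const_nhds (x := kc 3)).mul ofReal_inv
          rwa [mul_zero] at this) (tendsto_pt_const _)) k
        (fun j hj A B hAB => above j hj A B (by rw [hAB, List.length_cons]; omega))
      rw [hl] at l1
      refine close hk l1 (l2.congr' ?_)
      filter_upwards [ofReal_ne] with R hR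
      rw [List.map_cons, show (R : ℂ) * (kc 3 * (R : ℂ)⁻¹) = kc 3 by field_simp]
  cross := by
    intro q X Y hg _ hl
    have hV := ih (X.length + Y.length) (by omega)
    have l1 := h.rel_cross hV hg.head X Y rfl
    have l2 := h.limR (x := fun R => pert R (eta ^ 3 * q) :: pert R q :: X)
      (x₀ := eta ^ 3 * q :: q :: X) Y (fun _ => by simp)
      (tendsto_pt_cons (tendsto_pert' _) (tendsto_pt_cons (tendsto_pert' _)
        (tendsto_pt_const _))) k
      (fun j hj A B hAB => above j hj A B (by
        rw [hAB, List.length_cons, List.length_cons]; omega))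
    rw [hl] at l1
    exact close hk l1 l2
  fuse := by
    intro q X Y hg _ hl
    have hV := ih (X.length + Y.length + 1) (by omega)
    have l1 := h.rel_fuse hV hg.head X Y rfl
    have l2 := h.limR (x := fun R => pert R (eta ^ 2 * q) :: pert R q :: X)
      (x₀ := eta ^ 2 * q :: q :: X) Y (fun _ => by simp)
      (tendsto_pt_cons (tendsto_pert' _) (tendsto_pt_cons (tendsto_pert' _)
        (tendsto_pt_const _))) k
      (fun j hj A B hAB => above j hj A B (by
        rw [hAB, List.length_cons, List.length_cons]; omega))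
    rw [hl] at l1
    exact close hk l1 l2
  joint := by
    intro X Y _ _ hl
    have hd : dg L = dg (X.length + Y.length) + (4 * (X.length + Y.length) + 2) := by
      rw [← hl, dg_succ2]
    have := h.lim_joint hJ 1 1 X Y k
    rw [Polynomial.coeff_X_pow_mul', if_pos (by omega),
      ih _ (by omega) X Y rfl _ (by omega), mul_zero] at this
    simpa only [one_mul] using this

/-- **the degree** -/
theorem Near.van (h : Near U W P) (hJ : h.Joint ν) : ∀ L, h.Van L := by
  intro L
  induction L using Nat.strong_induction_on with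
  | _ L ih =>
  rcases Nat.eq_zero_or_pos L with rfl | hL
  · exact h.van_zero
  suffices H : ∀ k, dg L < k → ∀ A B : List ℂ, A.length + B.length = L →
      (h.sc A B).coeff k = 0 from fun A B hl k hk => H k hk A B hl
  refine descend (K := (Finset.range (L + 1)).sup
    (fun m => (sw (fun _ => 1) (h.F m (L - m))).natDegree)) ?_ ?_
  · intro k hk A B hl
    refine Polynomial.coeff_eq_zero_of_natDegree_lt (lt_of_le_of_lt ?_ hk)
    refine (swp_natDegree _ _ _).trans ?_
    have := Finset.le_sup (f := fun m => (sw (fun _ => 1) (h.F m (L - m))).natDegree)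
      (Finset.mem_range.2 (show A.length < L + 1 by omega))
    rw [show L - A.length = B.length by omega] at this
    exact this
  · intro k hk above A B hl
    refine h.van_ext (fun A' B' hl' hA hB => ?_) A B hl
    exact (h.null hJ ih hk above).eq_zero eta4 hL A' B' hl' hA hB

end NUMv

end
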