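import Pool.Agent.NUF.Mv.Deg

/-!
# The disc function

`Near U W P` (relations of the strip function for rapidities in an open set, the fused line and
crossing line, two far lines) gives `NUGas.Data eta ν Wd`, where `Wd` is the top homogeneous
component (degree `L (L - 1)`) of the strip function, and this component is the limit of the strip
function for lines moved to `i ∞`.
-/

open Polynomial Filter Topology

noncomputable section

namespace NUMv

variable {ν : ℂ} {U : ℕ → Set ℂ} {W : List ℂ → List ℂ → ℂ} {P : List ℂ → List ℂ → ℂ[X]}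

lemma rt_eta : (rt : ℂ) = eta - eta ^ 3 := by
  have h8 : eta = Complex.exp ((Real.pi / 4 : ℝ) * Complex.I) := by
    rw [eta, el]; congr 1; push_cast; ring
  have h3 : eta ^ 3 = Complex.exp ((Real.pi - Real.pi / 4 : ℝ) * Complex.I) := by
    rw [h8, ← Complex.exp_nat_mul]; congr 1; push_cast; ring
  rw [h3, h8, rt]
  apply Complex.ext
  · rw [Complex.ofReal_re, Complex.sub_re, Complex.exp_ofReal_mul_I_re,
      Complex.exp_ofReal_mul_I_re, Real.cos_pi_sub, Real.cos_pi_div_four]
    ring
  · rw [Complex.ofReal_im, Complex.sub_im, Complex.exp_ofReal_mul_I_im,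
      Complex.exp_ofReal_mul_I_im, Real.sin_pi_sub]
    ring

/-- **the properties of the disc function** -/
theorem Near.data (h : Near U W P) (hJ : h.Joint ν) : NUGas.Data eta ν h.Wd where
  nil := h.Wd_nil
  perm := fun Y hp => h.Wd_perm Y hp
  roles := h.Wd_roles
  poly := by
    intro X Y _ _
    obtain ⟨Q, h1, h2, h3⟩ := h.sc_poly X Y (dg (X.length + Y.length + 1))
    have hlen : ∀ t : ℂ, (t :: X).length + Y.length = X.length + Y.length + 1 := fun t => by
      rw [List.length_cons]; omega
    refine ⟨Q, h1, ?_, ?_, fun t _ => ?_⟩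
    · rw [h2, Polynomial.coeff_X_pow_mul', dg_succ, if_pos (by omega), Nat.add_sub_cancel]
      rfl
    · rw [Polynomial.coeff_zero_eq_eval_zero, ← h3]
      have l1 := h.rel_triv (h.van hJ _) X Y rfl
      have l2 := h.limR (x := fun R => kc 3 * (R : ℂ)⁻¹ :: X) (x₀ := 0 :: X) Y
        (fun _ => by simp) (tendsto_pt_cons (by
          have := (tendsto_const_nhds (x := kc 3)).mul ofReal_inv
          rwa [mul_zero] at this) (tendsto_pt_const _)) (dg (X.length + Y.length + 1))
        (fun j hj A B hAB => h.van hJ _ A B (by rw [hAB, List.length_cons]; omega) j hj)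
      refine tendsto_nhds_unique l2 (l1.congr' ?_)
      filter_upwards [ofReal_ne] with R hR
      rw [List.map_cons, show (R : ℂ) * (kc 3 * (R : ℂ)⁻¹) = kc 3 by field_simp]
    · rw [Near.Wd, hlen, h3]
  cross := by
    intro q X Y hg _
    have hlen : (eta ^ 3 * q :: q :: X).length + Y.length = X.length + Y.length + 2 := by
      rw [List.length_cons, List.length_cons]; omega
    have l1 := h.rel_cross (h.van hJ _) hg.head X Y rfl
    have l2 := h.limR (x := fun R => pert R (eta ^ 3 * q) :: pert R q :: X)
      (x₀ := eta ^ 3 * q :: q :: X) Y (fun _ => by simp)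
      (tendsto_pt_cons (tendsto_pert' _) (tendsto_pt_cons (tendsto_pert' _)
        (tendsto_pt_const _))) (dg (X.length + Y.length + 2))
      (fun j hj A B hAB => h.van hJ _ A B (by
        rw [hAB, List.length_cons, List.length_cons]; omega) j hj)
    rw [Near.Wd, hlen]
    exact tendsto_nhds_unique l2 l1
  fuse := by
    intro t X Y hg _
    have hlen : (eta ^ 2 * t :: t :: X).length + Y.length = X.length + Y.length + 2 := by
      rw [List.length_cons, List.length_cons]; omega
    have l1 := h.rel_fuse (h.van hJ _) hg.head X Y rfl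
    have l2 := h.limR (x := fun R => pert R (eta ^ 2 * t) :: pert R t :: X)
      (x₀ := eta ^ 2 * t :: t :: X) Y (fun _ => by simp)
      (tendsto_pt_cons (tendsto_pert' _) (tendsto_pt_cons (tendsto_pert' _)
        (tendsto_pt_const _))) (dg (X.length + Y.length + 2))
      (fun j hj A B hAB => h.van hJ _ A B (by
        rw [hAB, List.length_cons, List.length_cons]; omega) j hj)
    rw [Near.Wd, hlen]
    exact tendsto_nhds_unique l2 l1
  joint := by
    intro a b X Y _ _ _ _
    have hlen : ∀ s t : ℂ, (s :: X).length + (t :: Y).length = X.length + Y.length + 2 :=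
      fun s t => by rw [List.length_cons, List.length_cons]; omega
    have := h.lim_joint hJ a b X Y (dg (X.length + Y.length + 2))
    rw [Polynomial.coeff_X_pow_mul', dg_succ2, if_pos (by omega), Nat.add_sub_cancel,
      ← dg_succ2] at this
    simp only [Near.Wd, hlen]
    rw [show (2 : ℂ) - eta + eta ^ 3 = 2 - rt by rw [rt_eta]; ring]
    exact this

/-! ### the limit -/

lemma tendsto_pt_map {ι : Type*} {l : Filter ι} {f : ι → ℂ → ℂ} {f₀ : ℂ → ℂ} (L : List ℂ)
    (hf : ∀ z ∈ L, Tendsto (fun i => f i z) l (𝓝 (f₀ z))) :
    Tendsto (fun i => pt (L.map (f i))) l (𝓝 (pt (L.map f₀))) := by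
  induction L with
  | nil => simpa using tendsto_const_nhds
  | cons a L ih =>
    simp only [List.map_cons]
    exact tendsto_pt_cons (hf a (by simp)) (ih fun z hz => hf z (by simp [hz]))

/-- **the disc function is the limit of the strip function** -/
theorem Near.tendsto_disc (h : Near U W P) (hJ : h.Joint ν) (A B : List ℂ) :
    Tendsto (fun R : ℝ => h.Wt (A.map (fun z => cc (z + R * Complex.I)))
        (B.map (fun z => cc (z + R * Complex.I))) /
        (Complex.exp (2 * R) / 2) ^ ((A.length + B.length) * (A.length + B.length - 1))) atTop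
      (𝓝 (h.Wd (A.map (fun z => Complex.exp (-2 * Complex.I * z)))
        (B.map (fun z => Complex.exp (-2 * Complex.I * z))))) := by
  set f : ℝ → ℂ → ℂ := fun R z => Complex.exp (-2 * Complex.I * z) +
      (4 * Complex.exp (-2 * Complex.I * z))⁻¹ * (sR R)⁻¹ * (sR R)⁻¹ with hf
  have hf0 : ∀ z, Tendsto (fun R => f R z) atTop (𝓝 (Complex.exp (-2 * Complex.I * z))) :=
    fun z => tendsto_pert _
  have h1 := h.lim (Eventually.of_forall sR_ne) sR_inv (x := fun R => A.map (f R))
    (y := fun R => B.map (f R)) (x₀ := A.map (fun z => Complex.exp (-2 * Complex.I * z)))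
    (y₀ := B.map (fun z => Complex.exp (-2 * Complex.I * z))) (fun _ => by simp)
    (fun _ => by simp) (by
      simp only [← List.map_append]
      exact tendsto_pt_map _ (fun z _ => hf0 z))
    (dg (A.length + B.length)) (fun k hk => Eventually.of_forall fun R =>
      h.van hJ _ _ _ (by simp) k hk)
  rw [Near.Wd]
  simp only [List.length_map]
  refine h1.congr (fun R => ?_)
  have e : ∀ L : List ℂ, (L.map (f R)).map (sR R * ·) =
      L.map (fun z => cc (z + R * Complex.I)) := by
    intro L
    rw [List.map_map]
    refine List.map_congr_left (fun z _ => ?_)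
    rw [Function.comp_apply, cc_shift]
  rw [e, e]
  rfl

end NUMv

end
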