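import Mathlib

/-!
# Polynomials in the entries of a list

`ev A F` evaluates a polynomial in the variables `0, 1, 2, ...` at the entries of a list.
-/

open Polynomial

noncomputable section

namespace NUMv

/-- evaluation point of a list -/
def pt (A : List ℂ) : ℕ → ℂ := fun k => A.getD k 0

@[simp] lemma pt_cons_zero (t : ℂ) (A : List ℂ) : pt (t :: A) 0 = t := rfl

@[simp] lemma pt_cons_succ (t : ℂ) (A : List ℂ) (k : ℕ) : pt (t :: A) (k + 1) = pt A k := rfl

/-- value of a polynomial at a list -/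
def ev (A : List ℂ) (F : MvPolynomial ℕ ℂ) : ℂ := MvPolynomial.eval (pt A) F

/-- the first variable becomes the variable of the polynomial ring -/
def th : MvPolynomial ℕ ℂ →ₐ[ℂ] (MvPolynomial ℕ ℂ)[X] :=
  MvPolynomial.aeval (fun k : ℕ =>
    (Nat.casesOn k Polynomial.X (fun j => Polynomial.C (MvPolynomial.X j)) :
      (MvPolynomial ℕ ℂ)[X]))

/-- the polynomial in the first entry -/
def pol (A : List ℂ) (F : MvPolynomial ℕ ℂ) : ℂ[X] := (th F).map (MvPolynomial.eval (pt A))

lemma ev_cons (t : ℂ) (A : List ℂ) (F : MvPolynomial ℕ ℂ) : ev (t :: A) F = (pol A F).eval t := by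
  have h : (MvPolynomial.eval (pt (t :: A)) : MvPolynomial ℕ ℂ →+* ℂ) =
      (Polynomial.evalRingHom t).comp
        ((Polynomial.mapRingHom (MvPolynomial.eval (pt A))).comp (th : MvPolynomial ℕ ℂ →+* _)) := by
    refine MvPolynomial.ringHom_ext (fun a => ?_) (fun k => ?_)
    · simp [th, MvPolynomial.algebraMap_eq, Polynomial.algebraMap_apply]
    · cases k <;> simp [th]
  have := congrArg (fun f : MvPolynomial ℕ ℂ →+* ℂ => f F) h
  simpa [ev, pol] using this

lemma coeff_pol (A : List ℂ) (F : MvPolynomial ℕ ℂ) (j : ℕ) :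
    (pol A F).coeff j = ev A ((th F).coeff j) := by
  simp [pol, ev]

/-- the polynomial in the entry at the place `A₁.length` -/
def polAt (A₁ A₂ : List ℂ) (F : MvPolynomial ℕ ℂ) : ℂ[X] :=
  MvPolynomial.aeval (fun k : ℕ => if k = A₁.length then Polynomial.X
    else Polynomial.C (pt (A₁ ++ 0 :: A₂) k)) F

lemma ev_at (t : ℂ) (A₁ A₂ : List ℂ) (F : MvPolynomial ℕ ℂ) :
    ev (A₁ ++ t :: A₂) F = (polAt A₁ A₂ F).eval t := by
  have h : (MvPolynomial.eval (pt (A₁ ++ t :: A₂)) : MvPolynomial ℕ ℂ →+* ℂ) =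
      (Polynomial.evalRingHom t).comp
        ((MvPolynomial.aeval (fun k : ℕ => if k = A₁.length then Polynomial.X
          else Polynomial.C (pt (A₁ ++ 0 :: A₂) k)) : MvPolynomial ℕ ℂ →ₐ[ℂ] ℂ[X]) :
            MvPolynomial ℕ ℂ →+* ℂ[X]) := by
    refine MvPolynomial.ringHom_ext (fun a => ?_) (fun k => ?_)
    · simp
    · by_cases hk : k = A₁.length
      · subst hk
        simp [pt]
      · simp only [MvPolynomial.eval_X, RingHom.coe_comp, RingHom.coe_coe, Function.comp_apply,
          MvPolynomial.aeval_X, if_neg hk, Polynomial.coe_evalRingHom, Polynomial.eval_C]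
        simp only [pt]
        rcases lt_or_gt_of_ne hk with h | h
        · rw [List.getD_append _ _ _ _ h, List.getD_append _ _ _ _ h]
        · rw [List.getD_append_right _ _ _ _ h.le, List.getD_append_right _ _ _ _ h.le]
          obtain ⟨j, hj⟩ : ∃ j, k - A₁.length = j + 1 := ⟨k - A₁.length - 1, by omega⟩
          simp [hj]
  have := congrArg (fun f : MvPolynomial ℕ ℂ →+* ℂ => f F) h
  simpa [ev, polAt] using this

/-- a polynomial which vanishes at all lists of distinct elements of an infinite set vanishes -/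
lemma ev_zero_ext {U : Set ℂ} (hU : U.Infinite) : ∀ (n : ℕ) (F : MvPolynomial ℕ ℂ),
    (∀ A : List ℂ, A.length = n → (∀ a ∈ A, a ∈ U) → A.Nodup → ev A F = 0) →
    ∀ A : List ℂ, A.length = n → ev A F = 0 := by
  intro n
  induction n with
  | zero =>
    intro F h A hA
    rw [List.length_eq_zero_iff] at hA
    subst hA
    exact h [] rfl (by simp) List.nodup_nil
  | succ n ih =>
    intro F h A hA
    obtain ⟨t, A, rfl⟩ : ∃ t A', A = t :: A' := by
      cases A with
      | nil => simp at hA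
      | cons t A' => exact ⟨t, A', rfl⟩
    have hA' : A.length = n := by simpa using hA
    have key : ∀ j, ev A ((th F).coeff j) = 0 := by
      intro j
      refine ih _ (fun B hB hBU hBn => ?_) A hA'
      have hz : pol B F = 0 := by
        refine Polynomial.eq_zero_of_infinite_isRoot _ ?_
        refine (hU.sdiff (B.toFinset.finite_toSet)).mono (fun s hs => ?_)
        have hs2 : s ∉ B := by simpa using hs.2
        rw [Set.mem_ofPred_eq, Polynomial.IsRoot, ← ev_cons]
        refine h (s :: B) (by simp [hB]) ?_ (List.nodup_cons.2 ⟨hs2, hBn⟩)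
        intro a ha
        rcases List.mem_cons.1 ha with rfl | ha
        · exact hs.1
        · exact hBU a ha
      rw [← coeff_pol, hz, Polynomial.coeff_zero]
    rw [ev_cons]
    have : pol A F = 0 := by
      ext j
      rw [coeff_pol, key j, Polynomial.coeff_zero]
    rw [this, Polynomial.eval_zero]

/-- polynomials which agree at all lists of distinct elements of an infinite set agree -/
lemma ev_eq_ext {U : Set ℂ} (hU : U.Infinite) {n : ℕ} {F G : MvPolynomial ℕ ℂ}
    (h : ∀ A : List ℂ, A.length = n → (∀ a ∈ A, a ∈ U) → A.Nodup → ev A F = ev A G)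
    (A : List ℂ) (hA : A.length = n) : ev A F = ev A G := by
  have := ev_zero_ext hU n (F - G) (fun B hB hBU hBn => by
    simp only [ev, map_sub]; simpa [ev, sub_eq_zero] using h B hB hBU hBn) A hA
  simpa [ev, sub_eq_zero] using this

/-- two separately polynomial functions which agree on a cofinite part agree -/
lemma sep_ext {U V : Set ℂ} (hV : V.Infinite) (hVU : V ⊆ U) {n : ℕ} {w₁ w₂ : List ℂ → ℂ}
    (h₁ : ∀ A₁ A₂ : List ℂ, A₁.length + A₂.length + 1 = n → (∀ a ∈ A₁ ++ A₂, a ∈ U) →
      (A₁ ++ A₂).Nodup → ∃ P : ℂ[X], ∀ t ∈ U, t ∉ A₁ ++ A₂ → w₁ (A₁ ++ t :: A₂) = P.eval t)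
    (h₂ : ∀ A₁ A₂ : List ℂ, A₁.length + A₂.length + 1 = n → (∀ a ∈ A₁ ++ A₂, a ∈ U) →
      (A₁ ++ A₂).Nodup → ∃ P : ℂ[X], ∀ t ∈ U, t ∉ A₁ ++ A₂ → w₂ (A₁ ++ t :: A₂) = P.eval t)
    (h : ∀ A : List ℂ, A.length = n → (∀ a ∈ A, a ∈ V) → A.Nodup → w₁ A = w₂ A) :
    ∀ A : List ℂ, A.length = n → (∀ a ∈ A, a ∈ U) → A.Nodup → w₁ A = w₂ A := by
  classical
  suffices H : ∀ (k : ℕ) (A : List ℂ), A.length = n → (∀ a ∈ A, a ∈ U) → A.Nodup →
      A.countP (fun a => decide (a ∉ V)) = k → w₁ A = w₂ A from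
    fun A hA hAU hAn => H _ A hA hAU hAn rfl
  intro k
  induction k with
  | zero =>
    intro A hA hAU hAn hk
    refine h A hA (fun a ha => ?_) hAn
    by_contra hc
    exact (List.countP_eq_zero.1 hk a ha) (by simpa using hc)
  | succ k ih =>
    intro A hA hAU hAn hk
    obtain ⟨a, ha, haV⟩ : ∃ a ∈ A, a ∉ V := by
      have := List.countP_pos_iff.1 (by rw [hk]; omega : 0 < A.countP (fun a => decide (a ∉ V)))
      obtain ⟨a, ha, h⟩ := this
      exact ⟨a, ha, by simpa using h⟩
    obtain ⟨A₁, A₂, rfl⟩ := List.append_of_mem ha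
    have hn : A₁.length + A₂.length + 1 = n := by
      rw [← hA]; simp; omega
    have hU' : ∀ b ∈ A₁ ++ A₂, b ∈ U := by
      intro b hb
      refine hAU b ?_
      rcases List.mem_append.1 hb with hb | hb
      · exact List.mem_append.2 (Or.inl hb)
      · exact List.mem_append.2 (Or.inr (List.mem_cons_of_mem _ hb))
    have hperm : (A₁ ++ a :: A₂).Perm (a :: (A₁ ++ A₂)) := List.perm_middle
    have hnd := hperm.nodup_iff.1 hAn
    have hnd' := (List.nodup_cons.1 hnd).2
    have haA := (List.nodup_cons.1 hnd).1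
    obtain ⟨P₁, hP₁⟩ := h₁ A₁ A₂ hn hU' hnd'
    obtain ⟨P₂, hP₂⟩ := h₂ A₁ A₂ hn hU' hnd'
    have hPP : P₁ = P₂ := by
      refine Polynomial.eq_of_infinite_eval_eq _ _ ?_
      refine (hV.sdiff ((A₁ ++ A₂).toFinset.finite_toSet)).mono (fun s hs => ?_)
      have hs2 : s ∉ A₁ ++ A₂ := by simpa using hs.2
      have hsU : s ∈ U := hVU hs.1
      rw [Set.mem_ofPred_eq, ← hP₁ s hsU hs2, ← hP₂ s hsU hs2]
      have hperm' : (A₁ ++ s :: A₂).Perm (s :: (A₁ ++ A₂)) := List.perm_middle
      refine ih _ (by simp; omega) ?_ (hperm'.nodup_iff.2 (List.nodup_cons.2 ⟨hs2, hnd'⟩)) ?_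
      · intro b hb
        rcases List.mem_cons.1 (hperm'.mem_iff.1 hb) with rfl | hb
        · exact hsU
        · exact hU' b hb
      · have e1 : (A₁ ++ a :: A₂).countP (fun a => decide (a ∉ V)) =
            (A₁ ++ A₂).countP (fun a => decide (a ∉ V)) + 1 := by
          rw [hperm.countP_eq, List.countP_cons_of_pos (by simpa using haV)]
        have e2 : (A₁ ++ s :: A₂).countP (fun a => decide (a ∉ V)) =
            (A₁ ++ A₂).countP (fun a => decide (a ∉ V)) := by
          rw [hperm'.countP_eq, List.countP_cons_of_neg (by simpa using hs.1)]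
        omega
    rw [hP₁ a (hAU a (by simp)) haA, hP₂ a (hAU a (by simp)) haA, hPP]

/-- shift of the variables -/
def sh : MvPolynomial ℕ ℂ →ₐ[ℂ] MvPolynomial ℕ ℂ := MvPolynomial.rename Nat.succ

lemma ev_sh (t : ℂ) (A : List ℂ) (F : MvPolynomial ℕ ℂ) : ev (t :: A) (sh F) = ev A F := by
  simp only [ev, sh, MvPolynomial.eval_rename]
  rfl

/-- **a separately polynomial function is a polynomial** -/
theorem exists_mv : ∀ (n : ℕ) {U : Set ℂ} (_ : U.Infinite) {d : ℕ} (w : List ℂ → ℂ)
    (_ : ∀ A₁ A₂ : List ℂ, A₁.length + A₂.length + 1 = n → (∀ a ∈ A₁ ++ A₂, a ∈ U) →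
      (A₁ ++ A₂).Nodup → ∃ P : ℂ[X], P.natDegree ≤ d ∧
        ∀ t ∈ U, t ∉ A₁ ++ A₂ → w (A₁ ++ t :: A₂) = P.eval t),
    ∃ F : MvPolynomial ℕ ℂ, ∀ A : List ℂ, A.length = n → (∀ a ∈ A, a ∈ U) → A.Nodup →
      w A = ev A F := by
  classical
  intro n
  induction n with
  | zero =>
    intro U hU d w hw
    refine ⟨MvPolynomial.C (w []), fun A hA _ _ => ?_⟩
    rw [List.length_eq_zero_iff] at hA
    subst hA
    simp [ev]
  | succ n ih =>
    intro U hU d w hw
    obtain ⟨N, hNU, hN⟩ := hU.exists_subset_card_eq (d + 1)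
    set V : Set ℂ := U \ N with hVdef
    have hV : V.Infinite := hU.sdiff N.finite_toSet
    have hVU : V ⊆ U := Set.sdiff_subset
    have hG : ∀ s ∈ N, ∃ G : MvPolynomial ℕ ℂ, ∀ A : List ℂ, A.length = n → (∀ a ∈ A, a ∈ V) →
        A.Nodup → w (s :: A) = ev A G := by
      intro s hs
      refine ih hV (d := d) (fun A => w (s :: A)) (fun A₁ A₂ hn hA hnd => ?_)
      have hsA : s ∉ A₁ ++ A₂ := fun h => (hA s h).2 hs
      obtain ⟨P, hP, hP'⟩ := hw (s :: A₁) A₂ (by simp; omega) (fun a ha => by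
        rcases List.mem_cons.1 ha with rfl | ha
        · exact hNU hs
        · exact hVU (hA a ha)) (List.nodup_cons.2 ⟨hsA, hnd⟩)
      refine ⟨P, hP, fun t ht htA => ?_⟩
      refine hP' t (hVU ht) ?_
      intro h
      rcases List.mem_cons.1 h with rfl | h
      · exact ht.2 hs
      · exact htA h
    choose! G hG using hG
    set F : MvPolynomial ℕ ℂ := ∑ s ∈ N, sh (G s) *
      Polynomial.aeval (MvPolynomial.X 0 : MvPolynomial ℕ ℂ) (Lagrange.basis N id s) with hF
    refine ⟨F, ?_⟩
    refine sep_ext (U := U) (V := V) hV hVU (fun A₁ A₂ hn hA hnd => ?_)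
      (fun A₁ A₂ hn hA hnd => ⟨polAt A₁ A₂ F, fun t _ _ => ev_at t A₁ A₂ F⟩) ?_
    · obtain ⟨P, -, hP⟩ := hw A₁ A₂ hn hA hnd
      exact ⟨P, hP⟩
    · intro A hA hAV hAn
      obtain ⟨t, A, rfl⟩ : ∃ t A', A = t :: A' := by
        cases A with
        | nil => simp at hA
        | cons t A' => exact ⟨t, A', rfl⟩
      have hA' : A.length = n := by simpa using hA
      have hnd := (List.nodup_cons.1 hAn).2
      have htA := (List.nodup_cons.1 hAn).1
      have hAV' : ∀ a ∈ A, a ∈ V := fun a ha => hAV a (List.mem_cons_of_mem _ ha)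
      obtain ⟨P, hPd, hP⟩ := hw [] A (by simp; omega) (fun a ha => hVU (hAV' a (by simpa using ha)))
        (by simpa using hnd)
      simp only [List.nil_append] at hP
      have e1 : P = ∑ s ∈ N, Polynomial.C (P.eval s) * Lagrange.basis N id s := by
        have := Lagrange.eq_interpolate (s := N) (v := id) (f := P) (Set.injOn_id _) (by
          rw [hN]
          exact lt_of_le_of_lt (Polynomial.degree_le_of_natDegree_le hPd) (by
            exact_mod_cast Nat.lt_succ_self d))
        conv_lhs => rw [this]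
        simp [Lagrange.interpolate_apply]
      rw [hP t (hVU (hAV t (by simp))) htA, e1, Polynomial.eval_finsetSum]
      simp only [hF, ev, map_sum, map_mul]
      refine Finset.sum_congr rfl (fun s hs => ?_)
      have hsA : s ∉ A := fun h => (hAV' s h).2 hs
      have e2 := ev_sh t A (G s)
      simp only [ev] at e2
      rw [Polynomial.eval_mul, Polynomial.eval_C, e2, ← hP s (hNU hs) hsA,
        hG s hs A hA' hAV' hnd]
      congr 1
      have e3 : MvPolynomial.eval (pt (t :: A))
          (Polynomial.aeval (MvPolynomial.X 0 : MvPolynomial ℕ ℂ) (Lagrange.basis N id s)) =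
          Polynomial.aeval (MvPolynomial.eval (pt (t :: A)) (MvPolynomial.X 0))
            (Lagrange.basis N id s) := by
        have := Polynomial.hom_eval₂ (Lagrange.basis N id s) (algebraMap ℂ (MvPolynomial ℕ ℂ))
          (MvPolynomial.eval (pt (t :: A))) (MvPolynomial.X 0)
        rw [Polynomial.aeval_def, this, Polynomial.aeval_def]
        congr 1
        ext a
        simp [MvPolynomial.algebraMap_eq]
      rw [e3]
      simp

end NUMv

end
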