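import Pool.Agent.NUF.Mv.Disc
import Pool.Agent.NUF.Gas.Main

/-!
# The disc function is the charge sum
-/

open Polynomial Filter Topology

noncomputable section

namespace NUMv

variable {ν : ℂ} {U : ℕ → Set ℂ} {W : List ℂ → List ℂ → ℂ} {P : List ℂ → List ℂ → ℂ[X]}

/-- **the closed formula** for the top component of the strip function -/
theorem Near.formula (h : Near U W P) (hJ : h.Joint ν) {σ om : ℂ} (hσ : σ ^ 2 = 2 - eta + eta ^ 3)
    (hom : om ≠ 0) (hν : ν = om + om⁻¹) {X Y : List ℂ} (hX : NUGas.Gen eta X)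
    (hY : NUGas.Gen eta Y) : h.Wd X Y = NUGas.N eta σ om X Y := by
  subst hν
  exact NUGas.formula eta4 hσ hom (h.data hJ) hX hY

end NUMv

end
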