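import Pool.Agent.NUF.Mv.Near

/-!
# The relations for arbitrary values of the rapidities
-/

open Polynomial Filter Topology

noncomputable section

namespace NUMv

variable {U : ℕ → Set ℂ} {W : List ℂ → List ℂ → ℂ} {P : List ℂ → List ℂ → ℂ[X]}

/-- distinct values of `cos 2z`, `z ∈ U N` -/
def NrC (U : ℕ → Set ℂ) (N : ℕ) (L : List ℂ) : Prop := (∀ c ∈ L, c ∈ cc '' U N) ∧ L.Nodup

variable {N : ℕ}

lemma Near.nr (h : Near U W P) {L : List ℂ} (hN : NrC U N L) (hl : L.length ≤ N) :
    Nr U (L.map (zr U)) := h.nr_map_zr hN.1 hN.2 hl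

lemma NrC.perm {L L' : List ℂ} (h : L.Perm L') (hL : NrC U N L) : NrC U N L' :=
  ⟨fun a ha => hL.1 a (h.mem_iff.2 ha), h.nodup_iff.1 hL.2⟩

lemma NrC.tail {a : ℂ} {L : List ℂ} (hL : NrC U N (a :: L)) : NrC U N L :=
  ⟨fun b hb => hL.1 b (List.mem_cons_of_mem _ hb), (List.nodup_cons.1 hL.2).2⟩

/-- the polynomial of one more line, as a function of the values of `cos 2z` -/
def PC (U : ℕ → Set ℂ) (P : List ℂ → List ℂ → ℂ[X]) (A B : List ℂ) : ℂ[X] :=
  P (A.map (zr U)) (B.map (zr U))

lemma Near.nr2 (h : Near U W P) {A B : List ℂ} (hN : NrC U N (A ++ B))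
    (hl : A.length + B.length ≤ N) : Nr U (A.map (zr U) ++ B.map (zr U)) := by
  have := h.nr hN (by rw [List.length_append]; exact hl)
  rwa [List.map_append] at this

lemma Near.wt_near (h : Near U W P) {A B : List ℂ} (hN : NrC U N (A ++ B))
    (hl : A.length + B.length ≤ N) :
    h.Wt A B = W (A.map (zr U)) (B.map (zr U)) := by
  rw [← h.wt_eq (h.nr2 hN hl), h.map_cc_zr (fun c hc => hN.1 c (List.mem_append_left _ hc)),
    h.map_cc_zr (fun c hc => hN.1 c (List.mem_append_right _ hc))]

lemma Near.near_perm (h : Near U W P) {A A' B : List ℂ} (hp : A.Perm A')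
    (hN : NrC U N (A ++ B)) (hl : A.length + B.length ≤ N) : h.Wt A B = h.Wt A' B := by
  rw [h.wt_near hN hl, h.wt_near (hN.perm (hp.append_right B)) (by rw [← hp.length_eq]; exact hl),
    h.perm (hp.map _) (h.nr2 hN hl)]

lemma Near.near_roles (h : Near U W P) {A B : List ℂ} (hN : NrC U N (A ++ B))
    (hl : A.length + B.length ≤ N) : h.Wt A B = h.Wt B A := by
  rw [h.wt_near hN hl, h.wt_near (hN.perm List.perm_append_comm) (by rw [add_comm]; exact hl),
    h.roles (h.nr2 hN hl)]

lemma Near.near_val (h : Near U W P) {t : ℂ} {A B : List ℂ} (hN : NrC U N (t :: (A ++ B)))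
    (hl : A.length + B.length + 1 ≤ N) : h.Wt (t :: A) B = (PC U P A B).eval t := by
  have hn := h.nr hN (by rw [List.length_cons, List.length_append]; exact hl)
  rw [List.map_cons, List.map_append] at hn
  rw [h.wt_near (A := t :: A) hN (by rw [List.length_cons]; omega), List.map_cons, h.val hn, PC,
    h.cc_zr (hN.1 t (by simp))]

/-- splitting of a list -/
lemma split_len {m M : ℕ} {L : List ℂ} (hL : L.length = m + M) :
    ∃ A B : List ℂ, A.length = m ∧ B.length = M ∧ L = A ++ B :=
  ⟨L.take m, L.drop m, by simp [hL], by simp [hL], (List.take_append_drop m L).symm⟩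

lemma Near.near_pol (h : Near U W P) {A B : List ℂ} (hN : NrC U N (A ++ B))
    (hl : A.length + B.length + 1 ≤ N) :
    pol (A ++ B) (h.F (A.length + 1) B.length) = PC U P A B := by
  refine Polynomial.eq_of_infinite_eval_eq _ _ ?_
  refine ((h.infinite N).sdiff ((A ++ B).toFinset.finite_toSet)).mono (fun s hs => ?_)
  have hs2 : s ∉ A ++ B := by simpa using hs.2
  rw [Set.mem_ofPred_eq, ← ev_cons, ← h.near_val (N := N) (t := s) (A := A) (B := B)
    ⟨fun c hc => ?_, List.nodup_cons.2 ⟨hs2, hN.2⟩⟩ hl]
  · rfl
  · rcases List.mem_cons.1 hc with rfl | hc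
    · exact hs.1
    · exact hN.1 c hc

/-! ### symmetry -/

lemma ev_swap (L R : List ℂ) (a b : ℂ) (F : MvPolynomial ℕ ℂ) :
    ev (L ++ a :: b :: R) (MvPolynomial.rename (Equiv.swap L.length (L.length + 1)) F) =
      ev (L ++ b :: a :: R) F := by
  rw [ev, ev, MvPolynomial.eval_rename]
  congr 2
  funext k
  simp only [Function.comp_apply, pt]
  rcases lt_trichotomy k L.length with hk | hk | hk
  · rw [Equiv.swap_apply_of_ne_of_ne (by omega) (by omega), List.getD_append _ _ _ _ hk,
      List.getD_append _ _ _ _ hk]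
  · subst hk
    rw [Equiv.swap_apply_left, List.getD_append_right _ _ _ _ (by omega),
      List.getD_append_right _ _ _ _ (by omega)]
    simp
  · by_cases hk2 : k = L.length + 1
    · subst hk2
      rw [Equiv.swap_apply_right, List.getD_append_right _ _ _ _ (by omega),
        List.getD_append_right _ _ _ _ (by omega)]
      simp
    · rw [Equiv.swap_apply_of_ne_of_ne (by omega) (by omega),
        List.getD_append_right _ _ _ _ (by omega), List.getD_append_right _ _ _ _ (by omega)]
      obtain ⟨j, hj⟩ : ∃ j, k - L.length = j + 2 := ⟨k - L.length - 2, by omega⟩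
      simp [hj]

lemma Near.swap (h : Near U W P) (L₁ L₂ B : List ℂ) (a b : ℂ) :
    h.Wt (L₁ ++ a :: b :: L₂) B = h.Wt (L₁ ++ b :: a :: L₂) B := by
  set m := L₁.length + 2 + L₂.length with hm
  set M := B.length with hM
  have key : ∀ L : List ℂ, L.length = m + M → ev L (h.F m M) =
      ev L (MvPolynomial.rename (Equiv.swap L₁.length (L₁.length + 1)) (h.F m M)) := by
    refine PF.ext (h.infinite (m + M)) (PF.ev _ _) (PF.ev _ _) (fun L hL hLU hLn => ?_)
    obtain ⟨A, B', hA, hB, rfl⟩ := split_len hL
    obtain ⟨L₁', R, hL1, hR, rfl⟩ := split_len (m := L₁.length) (M := 2 + L₂.length)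
      (by rw [hA, hm]; ring)
    obtain ⟨a', b', L₂', rfl⟩ : ∃ a' b' L₂', R = a' :: b' :: L₂' := by
      rcases R with _ | ⟨a', R⟩
      · simp at hR; omega
      · rcases R with _ | ⟨b', R⟩
        · simp at hR; omega
        · exact ⟨a', b', R, rfl⟩
    have hp : (L₁' ++ a' :: b' :: L₂').Perm (L₁' ++ b' :: a' :: L₂') :=
      (List.Perm.swap b' a' L₂').append_left L₁'
    have := h.near_perm (N := m + M) hp (B := B') ⟨hLU, hLn⟩ (by rw [hA, hB])
    simp only [Near.Wt] at this
    rw [hp.length_eq.symm, hA, hB] at this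
    rw [this, ← hL1, List.append_assoc, List.append_assoc, List.cons_append, List.cons_append,
      List.cons_append, List.cons_append, ev_swap]
  have := key ((L₁ ++ a :: b :: L₂) ++ B) (by simp [hm, hM]; ring)
  rw [List.append_assoc, List.cons_append, List.cons_append, ev_swap] at this
  have e1 : (L₁ ++ a :: b :: L₂).length = m := by simp [hm]; ring
  have e2 : (L₁ ++ b :: a :: L₂).length = m := by simp [hm]; ring
  rw [Near.Wt, Near.Wt, e1, e2, List.append_assoc, List.append_assoc, List.cons_append,
    List.cons_append, List.cons_append, List.cons_append]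
  exact this

theorem Near.wt_perm (h : Near U W P) {A A' : List ℂ} (B : List ℂ) (hp : A.Perm A') :
    h.Wt A B = h.Wt A' B := by
  suffices H : ∀ L, h.Wt (L ++ A) B = h.Wt (L ++ A') B from H []
  induction hp with
  | nil => intro L; rfl
  | cons x _ ih =>
    intro L
    have := ih (L ++ [x])
    simpa using this
  | swap x y l => intro L; exact h.swap L l B y x
  | trans _ _ ih1 ih2 => intro L; exact (ih1 L).trans (ih2 L)

theorem Near.wt_roles (h : Near U W P) (A B : List ℂ) : h.Wt A B = h.Wt B A := by
  set m := A.length with hm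
  set M := B.length with hM
  have hPF : PF (m + M) (fun L => ev (L.drop m ++ L.take m) (h.F M m)) := by
    refine PF.rename (k := M + m) (PF.ev _ _)
      (fun k => if k < M then m + k else if k < M + m then k - M else k)
      (fun L => L.drop m ++ L.take m) (fun L hL => ⟨by simp [hL], fun j => ?_⟩)
    have hd : (L.drop m).length = M := by simp [hL]
    simp only [pt]
    split_ifs with h1 h2
    · rw [List.getD_append _ _ _ _ (by omega)]
      simp [List.getD_eq_getElem?_getD]
    · rw [List.getD_append_right _ _ _ _ (by omega), hd]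
      simp only [List.getD_eq_getElem?_getD]
      rw [List.getElem?_take_of_lt (by omega)]
    · rw [List.getD_append_right _ _ _ _ (by omega), hd]
      simp only [List.getD_eq_getElem?_getD]
      rw [List.getElem?_eq_none (by simp; omega), List.getElem?_eq_none (by omega)]
  have key : ∀ L : List ℂ, L.length = m + M → ev L (h.F m M) =
      ev (L.drop m ++ L.take m) (h.F M m) := by
    refine PF.ext (h.infinite (m + M)) (PF.ev _ _) hPF (fun L hL hLU hLn => ?_)
    obtain ⟨A', B', hA, hB, rfl⟩ := split_len hL
    have := h.near_roles (N := m + M) (A := A') (B := B') ⟨hLU, hLn⟩ (by rw [hA, hB])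
    simp only [Near.Wt, hA, hB] at this
    rw [this]
    congr 1
    rw [List.drop_append_of_le_length (by omega), List.take_append_of_le_length (by omega),
      List.drop_of_length_le (by omega), List.take_of_length_le (by omega), List.nil_append]
  have := key (A ++ B) (by simp [hm, hM])
  rw [Near.Wt, Near.Wt, ← hm, ← hM, this]
  congr 1
  rw [List.drop_append_of_le_length (by omega), List.take_append_of_le_length (by omega),
    List.drop_of_length_le (by omega), List.take_of_length_le (by omega), List.nil_append]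

/-! ### one variable -/

theorem Near.wt_deg (h : Near U W P) (A B : List ℂ) :
    (pol (A ++ B) (h.F (A.length + 1) B.length)).natDegree ≤ 2 * (A.length + B.length) := by
  rw [Polynomial.natDegree_le_iff_coeff_eq_zero]
  intro j hj
  rw [coeff_pol]
  have := PF.ext (n := A.length + B.length) (h.infinite (A.length + B.length + 1))
    (PF.ev _ ((th (h.F (A.length + 1) B.length)).coeff j)) (PF.const _ 0)
    (fun L hL hLU hLn => by
      obtain ⟨A', B', hA, hB, rfl⟩ := split_len hL
      have hN : NrC U (A.length + B.length + 1) (A' ++ B') := ⟨hLU, hLn⟩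
      have h1 := h.near_pol hN (by rw [hA, hB])
      rw [hA, hB] at h1
      rw [← coeff_pol, h1, PC]
      have hn := h.nr2 hN (by omega)
      have h2 := h.deg hn
      simp only [List.length_map, hA, hB] at h2
      exact Polynomial.coeff_eq_zero_of_natDegree_lt (lt_of_le_of_lt h2 hj))
    (A ++ B) (by simp)
  exact this

theorem Near.wt_lead (h : Near U W P) (A B : List ℂ) :
    (pol (A ++ B) (h.F (A.length + 1) B.length)).coeff (2 * (A.length + B.length)) =
      h.Wt A B := by
  rw [coeff_pol]
  have := PF.ext (n := A.length + B.length) (h.infinite (A.length + B.length + 1))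
    (PF.ev _ ((th (h.F (A.length + 1) B.length)).coeff (2 * (A.length + B.length))))
    (PF.ev _ (h.F A.length B.length))
    (fun L hL hLU hLn => by
      obtain ⟨A', B', hA, hB, rfl⟩ := split_len hL
      have hN : NrC U (A.length + B.length + 1) (A' ++ B') := ⟨hLU, hLn⟩
      have h1 := h.near_pol hN (by rw [hA, hB])
      have h3 := h.wt_near hN (by omega)
      rw [Near.Wt] at h3
      rw [hA, hB] at h1 h3
      rw [← coeff_pol, h1, PC, h3]
      have hn := h.nr2 hN (by omega)
      have h2 := h.lead hn
      simpa only [List.length_map, hA, hB] using h2)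
    (A ++ B) (by simp)
  exact this

theorem Near.wt_val (h : Near U W P) (t : ℂ) (A B : List ℂ) :
    h.Wt (t :: A) B = (pol (A ++ B) (h.F (A.length + 1) B.length)).eval t := by
  rw [← ev_cons]
  rfl

theorem Near.wt_nil (h : Near U W P) : h.Wt [] [] = 1 := by
  have := h.wt_near (N := 0) (A := []) (B := []) ⟨by simp, List.nodup_nil⟩ (by simp)
  rw [this]
  exact h.nil

theorem Near.wt_triv (h : Near U W P) (A B : List ℂ) :
    h.Wt (kc 3 :: A) B = trivF (A ++ B) ^ 2 * h.Wt A B := by
  have e : ∀ L : List ℂ, trivF L = (L.map (fun c => (X + C (kc 1) : ℂ[X]).eval c)).prod := by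
    intro L; simp [trivF]
  have := PF.ext (n := A.length + B.length) (h.infinite (A.length + B.length + 1))
    (PF.cons (kc 3) (PF.ev _ (h.F (A.length + 1) B.length)))
    (((PF.prod _ (X + C (kc 1))).pow 2).mul (PF.ev _ (h.F A.length B.length)))
    (fun L hL hLU hLn => by
      obtain ⟨A', B', hA, hB, rfl⟩ := split_len hL
      have hN : NrC U (A.length + B.length + 1) (A' ++ B') := ⟨hLU, hLn⟩
      have h1 := h.near_pol hN (by rw [hA, hB])
      have h3 := h.wt_near hN (by omega)
      rw [Near.Wt] at h3
      rw [hA, hB] at h1 h3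
      have hn := h.nr2 hN (by omega)
      have h2 := h.triv hn
      beta_reduce
      rw [ev_cons, h1, PC, h2, h3, ← e]
      congr 2
      rw [← List.map_append, h.map_cc_zr hN.1])
    (A ++ B) (by simp)
  rw [e]
  exact this

/-! ### crossing and fusion -/

lemma crossF_eq (q : ℂ) (L : List ℂ) : crossF q L = (cc (q - 3 * el) + cc q + (kc 1 - kc 3)) *
    (L.map (fun c => ((X - C (cc (q + 3 * el))) * (X - C (cc (q - 6 * el))) : ℂ[X]).eval c)).prod := by
  simp [crossF]

lemma fuseF_eq (q : ℂ) (L : List ℂ) : fuseF q L = rt * (cc (q + el) + kc 3) *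
    (L.map (fun c => ((X + C (cc (q + el))) : ℂ[X]).eval c)).prod := by
  simp only [fuseF, eval_add, eval_X, eval_C]
  congr 2
  exact List.map_congr_left (fun c _ => add_comm _ _)

lemma PF.crossF (n : ℕ) (q : ℂ) : PF n (fun L => NUMv.crossF q L) :=
  ((PF.const n _).mul (PF.prod n _)).congr (fun L _ => crossF_eq q L)

lemma PF.fuseF (n : ℕ) (q : ℂ) : PF n (fun L => NUMv.fuseF q L) :=
  ((PF.const n _).mul (PF.prod n _)).congr (fun L _ => fuseF_eq q L)

lemma differentiable_cc (k : ℂ) : Differentiable ℂ (fun q : ℂ => cc (q + k)) := by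
  unfold cc
  fun_prop

lemma differentiable_cc' : Differentiable ℂ (fun q : ℂ => cc q) := by
  unfold cc
  fun_prop

lemma differentiable_crossF (L : List ℂ) : Differentiable ℂ (fun q : ℂ => crossF q L) := by
  have h0 : Differentiable ℂ (fun q : ℂ =>
      (L.map (fun c => (c - cc (q + 3 * el)) * (c - cc (q - 6 * el)))).prod) := by
    induction L with
    | nil => simp
    | cons c L ih =>
      simp only [List.map_cons, List.prod_cons]
      refine Differentiable.mul ?_ ih
      unfold cc
      fun_prop
  unfold crossF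
  refine Differentiable.mul ?_ h0
  unfold cc
  fun_prop

lemma differentiable_fuseF (L : List ℂ) : Differentiable ℂ (fun q : ℂ => fuseF q L) := by
  have h0 : Differentiable ℂ (fun q : ℂ => (L.map (fun c => cc (q + el) + c)).prod) := by
    induction L with
    | nil => simp
    | cons c L ih =>
      simp only [List.map_cons, List.prod_cons]
      refine Differentiable.mul ?_ ih
      unfold cc
      fun_prop
  unfold fuseF
  refine Differentiable.mul ?_ h0
  unfold cc
  fun_prop

lemma Near.inf_ne (h : Near U W P) (n : ℕ) (a : ℂ) : (cc '' U n \ {a}).Infinite :=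
  (h.infinite n).sdiff (Set.finite_singleton a)

lemma nrc_cons {a : ℂ} (ha : a ∈ cc '' U N) {L : List ℂ} (hL : ∀ c ∈ L, c ∈ cc '' U N \ {a})
    (hn : L.Nodup) : NrC U N (a :: L) := by
  refine ⟨fun c hc => ?_, List.nodup_cons.2 ⟨fun h => (hL a h).2 rfl, hn⟩⟩
  rcases List.mem_cons.1 hc with rfl | hc
  · exact ha
  · exact (hL c hc).1

theorem Near.wt_cross (h : Near U W P) (q : ℂ) (A B : List ℂ) :
    h.Wt (cc (q - 3 * el) :: cc q :: A) B = crossF q (A ++ B) ^ 2 * h.Wt A B := by
  set K := A.length + B.length + 2 with hK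
  have key : ∀ q ∈ U K, h.Wt (cc (q - 3 * el) :: cc q :: A) B =
      crossF q (A ++ B) ^ 2 * h.Wt A B := by
    intro q hq
    have hqU : cc q ∈ cc '' U K := ⟨q, hq, rfl⟩
    have hq0 : q ∈ U 0 := h.sub (Nat.zero_le _) hq
    have := PF.ext (n := A.length + B.length) (h.inf_ne K (cc q))
      ((PF.cons (cc (q - 3 * el)) (f := fun L => ev L (h.F (A.length + 2) B.length))
        (PF.ev (A.length + B.length + 1 + 1) _)).cons (cc q) (f := fun L =>
          ev (cc (q - 3 * el) :: L) (h.F (A.length + 2) B.length)))
      (((PF.crossF _ q).pow 2).mul (PF.ev _ (h.F A.length B.length)))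
      (fun L hL hLU hLn => by
        obtain ⟨A', B', hA, hB, rfl⟩ := split_len hL
        have hN1 : NrC U K (cc q :: (A' ++ B')) := nrc_cons hqU hLU hLn
        have hN : NrC U K (A' ++ B') := hN1.tail
        have h1 := h.near_pol (A := cc q :: A') (B := B') hN1 (by
          rw [List.length_cons]; omega)
        have h3 := h.wt_near hN (by omega)
        rw [Near.Wt] at h3
        rw [hA, hB] at h3
        simp only [List.length_cons, hA, hB, List.cons_append] at h1
        have hn := h.nr hN1 (by rw [List.length_cons, List.length_append]; omega)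
        rw [List.map_cons, List.map_append, h.zr_cc hq0] at hn
        have h2 := h.cross hn
        beta_reduce
        rw [ev_cons, h1, PC, List.map_cons, h.zr_cc hq0, h2, h3]
        congr 2
        rw [← List.map_append, h.map_cc_zr hN.1])
      (A ++ B) (by simp)
    exact this
  refine entire_ext (h.isOpen K) (h.nonempty K) ?_ ?_ key q
  · have : Differentiable ℂ (fun q : ℂ => ev (cc (q - 3 * el) :: cc q :: (A ++ B))
        (h.F (A.length + 2) B.length)) := by
      refine differentiable_ev_cons2 _ _ _ ?_ differentiable_cc' _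
      have := differentiable_cc (-(3 * el))
      simpa only [sub_eq_add_neg] using this
    exact this
  · exact ((differentiable_crossF (A ++ B)).pow 2).mul (differentiable_const _)

/-- identity theorem, off a countable set -/
lemma entire_ext_off {V : Set ℂ} (hV : IsOpen V) (hne : V.Nonempty) {S : Set ℂ} (hS : S.Countable)
    {f g : ℂ → ℂ} (hf : Differentiable ℂ f) (hg : Differentiable ℂ g)
    (h : ∀ z ∈ V, z ∉ S → f z = g z) (z : ℂ) : f z = g z := by
  refine entire_ext hV hne hf hg (fun w hw => ?_) z
  have hd : Dense Sᶜ := hS.dense_compl ℂ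
  by_contra hne'
  have ho : IsOpen {w | f w ≠ g w} := isOpen_ne_fun hf.continuous hg.continuous
  obtain ⟨v, hv, hvS⟩ := hd.inter_open_nonempty _ (hV.inter ho) ⟨w, hw, hne'⟩
  exact hv.2 (h v hv.1 hvS)

theorem Near.wt_fuse (h : Near U W P) (q : ℂ) (A B : List ℂ) :
    h.Wt (cc (q + 2 * el) :: cc q :: A) B =
      fuseF q (A ++ B) ^ 2 * h.Wt (cc (q + el) :: A) B := by
  set K := A.length + B.length + 2 with hK
  have key : ∀ A' B' : List ℂ, A'.length = A.length → B'.length = B.length →
      NrC U K (A' ++ B') → ∀ q, h.Wt (cc (q + 2 * el) :: cc q :: A') B' =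
      fuseF q (A' ++ B') ^ 2 * h.Wt (cc (q + el) :: A') B' := by
    intro A' B' hA hB hN
    have hn := h.nr2 hN (by omega)
    obtain ⟨S, hS, hf⟩ := h.fuse hn
    have hfin : {x | x ∈ A'.map (zr U) ++ B'.map (zr U)}.Finite := List.finite_toSet _
    have hUi : (U K).Infinite := Set.Infinite.of_image cc (h.infinite K)
    refine entire_ext_off (V := U K) (S := S ∪ {x | x ∈ A'.map (zr U) ++ B'.map (zr U)})
      (h.isOpen K) (h.nonempty K) (hS.union hfin.countable) ?_ ?_ ?_
    · have : Differentiable ℂ (fun q : ℂ => ev (cc (q + 2 * el) :: cc q :: (A' ++ B'))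
          (h.F (A'.length + 2) B'.length)) :=
        differentiable_ev_cons2 _ _ _ (differentiable_cc _) differentiable_cc' _
      exact this
    · refine ((differentiable_fuseF (A' ++ B')).pow 2).mul ?_
      have : Differentiable ℂ (fun q : ℂ => ev (cc (q + el) :: (A' ++ B'))
          (h.F (A'.length + 1) B'.length)) :=
        differentiable_ev_cons _ _ (differentiable_cc _) _
      exact this
    · intro q hq hqS
      rw [Set.mem_union, not_or] at hqS
      have hq2 : q ∉ A'.map (zr U) ++ B'.map (zr U) := hqS.2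
      have hqU : cc q ∈ cc '' U K := ⟨q, hq, rfl⟩
      have hq0 : q ∈ U 0 := h.sub (Nat.zero_le _) hq
      have hcq : cc q ∉ A' ++ B' := by
        intro hc
        apply hq2
        rw [← List.map_append]
        exact List.mem_map.2 ⟨cc q, hc, h.zr_cc hq0⟩
      have hN1 : NrC U K (cc q :: (A' ++ B')) := by
        refine ⟨fun a ha => ?_, List.nodup_cons.2 ⟨hcq, hN.2⟩⟩
        rcases List.mem_cons.1 ha with rfl | ha
        · exact hqU
        · exact hN.1 a ha
      have h1 := h.near_pol (A := cc q :: A') (B := B') hN1 (by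
        rw [List.length_cons]; omega)
      have h4 := h.near_pol hN (by omega)
      have hnq := h.nr hN1 (by rw [List.length_cons, List.length_append]; omega)
      rw [List.map_cons, List.map_append, h.zr_cc hq0] at hnq
      have h2 := hf q hqS.1 hnq
      rw [← List.map_append, h.map_cc_zr hN.1] at h2
      have e1 : h.Wt (cc (q + 2 * el) :: cc q :: A') B' =
          (P (q :: A'.map (zr U)) (B'.map (zr U))).eval (cc (q + 2 * el)) := by
        rw [PC, List.map_cons, h.zr_cc hq0] at h1
        rw [← h1, ← ev_cons]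
        rfl
      have e2 : h.Wt (cc (q + el) :: A') B' =
          (P (A'.map (zr U)) (B'.map (zr U))).eval (cc (q + el)) := by
        rw [PC] at h4
        rw [← h4, ← ev_cons]
        rfl
      rw [e1, e2, h2]
  have := PF.ext (n := A.length + B.length) (h.infinite K)
    ((PF.cons (cc (q + 2 * el)) (f := fun L => ev L (h.F (A.length + 2) B.length))
      (PF.ev (A.length + B.length + 1 + 1) _)).cons (cc q) (f := fun L =>
        ev (cc (q + 2 * el) :: L) (h.F (A.length + 2) B.length)))
    (((PF.fuseF _ q).pow 2).mul (PF.cons (cc (q + el))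
      (f := fun L => ev L (h.F (A.length + 1) B.length)) (PF.ev _ _)))
    (fun L hL hLU hLn => by
      obtain ⟨A', B', hA, hB, rfl⟩ := split_len hL
      have := key A' B' hA hB ⟨hLU, hLn⟩ q
      rw [Near.Wt, Near.Wt] at this
      simp only [List.length_cons, hA, hB, List.cons_append] at this
      exact this)
    (A ++ B) (by simp)
  exact this

end NUMv

end
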