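import Pool.Agent.NUF.Mv.Sc

/-!
# Two lines on the two sides, both far away
-/

open Polynomial Filter Topology

noncomputable section

namespace NUMv

variable {ν : ℂ} {U : ℕ → Set ℂ} {W : List ℂ → List ℂ → ℂ} {P : List ℂ → List ℂ → ℂ[X]}

/-- the entry behind `m + 1` entries goes to the second place -/
def rn (m k : ℕ) : ℕ := if k = 0 then 0 else if k ≤ m then k + 1 else if k = m + 1 then 1 else k

lemma pt_rn (x y : ℂ) (A B : List ℂ) (j : ℕ) :
    pt (x :: y :: (A ++ B)) (rn A.length j) = pt (x :: (A ++ y :: B)) j := by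
  cases j with
  | zero => simp [rn]
  | succ i =>
    rw [pt_cons_succ, rn, if_neg (by omega)]
    rcases lt_trichotomy i A.length with h | h | h
    · rw [if_pos (by omega), pt_cons_succ, pt_cons_succ]
      simp only [pt]
      rw [List.getD_append _ _ _ _ h, List.getD_append _ _ _ _ h]
    · rw [if_neg (by omega), if_pos (by omega)]
      subst h
      simp [pt]
    · rw [if_neg (by omega), if_neg (by omega), pt_cons_succ]
      obtain ⟨k, rfl⟩ : ∃ k, i = A.length + 1 + k := ⟨i - A.length - 1, by omega⟩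
      rw [show A.length + 1 + k = (A.length + k) + 1 by ring, pt_cons_succ]
      simp only [pt]
      rw [List.getD_append_right _ _ _ _ (by omega), List.getD_append_right _ _ _ _ (by omega)]
      rw [show A.length + k + 1 - A.length = k + 1 by omega,
        show A.length + k - A.length = k by omega]
      simp

/-- the strip function, one line of each side in front -/
def Near.F2 (h : Near U W P) (m M : ℕ) : MvPolynomial ℕ ℂ :=
  MvPolynomial.rename (rn m) (h.F (m + 1) (M + 1))

lemma Near.ev_F2 (h : Near U W P) (x y : ℂ) (A B : List ℂ) :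
    ev (x :: y :: (A ++ B)) (h.F2 A.length B.length) = h.Wt (x :: A) (y :: B) := by
  rw [Near.F2, ev, MvPolynomial.eval_rename, Near.Wt, ev]
  congr 2
  funext j
  exact pt_rn x y A B j

/-- weights of the first two variables -/
def w2 (k : ℕ) : ℕ := if k < 2 then 1 else 0

lemma w2_scale (s a b : ℂ) (L : List ℂ) :
    (fun k => s ^ w2 k * pt (a :: b :: L) k) = pt (s * a :: s * b :: L) := by
  funext k
  rcases k with _ | _ | k
  · simp [w2]
  · simp [w2]
  · simp [w2]

/-- `R ↦ e ^ 2R / 2` -/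
def sR (R : ℝ) : ℂ := Complex.exp (2 * R) / 2

lemma sR_ne (R : ℝ) : sR R ≠ 0 := div_ne_zero (Complex.exp_ne_zero _) two_ne_zero

lemma sR_inv : Tendsto (fun R => (sR R)⁻¹) atTop (𝓝 0) := by
  have h1 : Tendsto (fun R : ℝ => (2 : ℝ) * Real.exp (-(2 * R))) atTop (𝓝 (2 * 0)) := by
    refine tendsto_const_nhds.mul (Real.tendsto_exp_neg_atTop_nhds_zero.comp ?_)
    exact tendsto_id.const_mul_atTop (by norm_num)
  rw [mul_zero] at h1
  have h2 : Tendsto (fun R : ℝ => (((2 : ℝ) * Real.exp (-(2 * R)) : ℝ) : ℂ)) atTop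
      (𝓝 ((0 : ℝ) : ℂ)) := (Complex.continuous_ofReal.tendsto 0).comp h1
  rw [Complex.ofReal_zero] at h2
  refine h2.congr (fun R => ?_)
  rw [sR, inv_div]
  push_cast
  rw [Complex.exp_neg]
  ring

lemma cc_exp (z : ℂ) : cc z = (Complex.exp (-2 * Complex.I * z) +
    (Complex.exp (-2 * Complex.I * z))⁻¹) / 2 := by
  rw [cc, Complex.cos, ← Complex.exp_neg, add_comm]
  congr 3 <;> ring_nf

lemma cc_shift (p : ℂ) (R : ℝ) : cc (p + R * Complex.I) =
    sR R * (Complex.exp (-2 * Complex.I * p) +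
      (4 * Complex.exp (-2 * Complex.I * p))⁻¹ * (sR R)⁻¹ * (sR R)⁻¹) := by
  have h1 : Complex.exp (-2 * Complex.I * (p + R * Complex.I)) =
      2 * (sR R * Complex.exp (-2 * Complex.I * p)) := by
    rw [sR, ← mul_assoc, mul_div_cancel₀ _ (two_ne_zero), ← Complex.exp_add]
    congr 1
    linear_combination (-2 * (R : ℂ)) * Complex.I_mul_I
  rw [cc_exp, h1]
  have h2 := sR_ne R
  have h3 := Complex.exp_ne_zero (-2 * Complex.I * p)
  field_simp
  ring

/-- **two far lines**: the hypothesis. `ν` = weight of the loops round the face. -/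
def Near.Joint (h : Near U W P) (ν : ℂ) : Prop :=
  ∀ n : ℕ, ∃ V : Set ℂ, IsOpen V ∧ V.Nonempty ∧ V ⊆ U n ∧ ∀ A B : List ℂ,
    A.length + B.length = n → (∀ a ∈ A ++ B, a ∈ V) → (A ++ B).Nodup → ∀ p q : ℂ,
    Tendsto (fun R : ℝ => h.Wt (cc (p + R * Complex.I) :: A.map cc)
        (cc (q + R * Complex.I) :: B.map cc) / (Complex.exp (2 * R) / 2) ^ (4 * n + 2)) atTop
      (𝓝 ((Complex.exp (-2 * Complex.I * p) * Complex.exp (-2 * Complex.I * q)) ^ (2 * n) *
        ((Complex.exp (-2 * Complex.I * p) + Complex.exp (-2 * Complex.I * q)) ^ 2 +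
          (2 - rt) * ν * (Complex.exp (-2 * Complex.I * p) * Complex.exp (-2 * Complex.I * q))) *
        W A B))

/-- two far lines, from functions `G`, `D` of the places of the two lines -/
lemma Near.joint_of (h : Near U W P) {ν : ℂ} (hJ : ∀ {A B : List ℂ}, Nr U (A ++ B) →
    ∃ G D : ℂ → ℂ → ℂ, (∀ p, Differentiable ℂ (G p)) ∧ (∀ p, Differentiable ℂ (D p)) ∧
    (∀ p q, Nr U (q :: (A ++ B)) → G p q = D p q * (P A (q :: B)).eval (cc p)) ∧
    (∀ p q : ℂ, ∀ᶠ R : ℝ in atTop, D (p + R * Complex.I) (q + R * Complex.I) ≠ 0) ∧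
    ∀ p q : ℂ, Tendsto (fun R : ℝ => G (p + R * Complex.I) (q + R * Complex.I) /
        D (p + R * Complex.I) (q + R * Complex.I) /
        (Complex.exp (2 * R) / 2) ^ (4 * (A.length + B.length) + 2)) atTop
      (𝓝 ((Complex.exp (-2 * Complex.I * p) * Complex.exp (-2 * Complex.I * q)) ^
          (2 * (A.length + B.length)) *
        ((Complex.exp (-2 * Complex.I * p) + Complex.exp (-2 * Complex.I * q)) ^ 2 +
          (2 - rt) * ν * (Complex.exp (-2 * Complex.I * p) * Complex.exp (-2 * Complex.I * q))) *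
        W A B))) : h.Joint ν := by
  intro n
  refine ⟨U (n + 2), h.isOpen _, h.nonempty _, h.sub (by omega), fun A B hl hAB hnd p q => ?_⟩
  have hn : Nr U (A ++ B) := ⟨fun a ha => by
    rw [List.length_append, hl]
    exact h.sub (by omega) (hAB a ha), hnd⟩
  have h0 : ∀ z ∈ A ++ B, z ∈ U 0 := fun z hz => h.sub (Nat.zero_le _) (hAB z hz)
  have hcn : (A.map cc ++ B.map cc).Nodup := by
    rw [← List.map_append]
    exact List.Nodup.map_on (fun x hx y hy hxy => h.inj (h0 x hx) (h0 y hy) hxy) hnd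
  obtain ⟨G, D, hG, hD, hGv, hDne, hlim⟩ := hJ hn
  have hUi : (U (n + 2)).Infinite := Set.Infinite.of_image cc (h.infinite (n + 2))
  have hfin : {x | x ∈ A ++ B}.Finite := List.finite_toSet _
  have key : ∀ p q, G p q = D p q * h.Wt (cc p :: A.map cc) (cc q :: B.map cc) := by
    intro p
    refine entire_ext (U := U (n + 2) \ {x | x ∈ A ++ B})
      ((h.isOpen _).sdiff hfin.isClosed) (hUi.sdiff hfin).nonempty (hG p) ?_ ?_
    · refine (hD p).mul ?_
      have e : ∀ q : ℂ, h.Wt (cc p :: A.map cc) (cc q :: B.map cc) =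
          (polAt (cc p :: A.map cc) (B.map cc)
            (h.F ((A.map cc).length + 1) ((B.map cc).length + 1))).eval (cc q) := by
        intro q
        rw [← ev_at]
        rfl
      refine Differentiable.congr_fun' ?_ e
      exact (Polynomial.differentiable _).comp differentiable_cc'
    · intro q hq
      have hqU : q ∈ U (n + 2) := hq.1
      have hq0 : q ∈ U 0 := h.sub (Nat.zero_le _) hqU
      have hq2 : q ∉ A ++ B := hq.2
      have hnq : Nr U (q :: (A ++ B)) := by
        refine ⟨fun a ha => ?_, List.nodup_cons.2 ⟨hq2, hn.2⟩⟩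
        rw [List.length_cons, List.length_append, hl]
        refine h.sub (show n + 1 ≤ n + 2 by omega) ?_
        rcases List.mem_cons.1 ha with rfl | ha
        · exact hqU
        · exact hAB a ha
      have hcq : cc q ∉ A.map cc ++ B.map cc := by
        intro hc
        apply hq2
        rw [← List.map_append] at hc
        obtain ⟨z, hz, he⟩ := List.mem_map.1 hc
        rw [← h.inj (h0 z hz) hq0 he]
        exact hz
      have hN2 : NrC U (n + 2) (A.map cc ++ cc q :: B.map cc) := by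
        refine NrC.perm (List.perm_middle.symm) ⟨fun a ha => ?_, List.nodup_cons.2 ⟨hcq, hcn⟩⟩
        rcases List.mem_cons.1 ha with rfl | ha
        · exact ⟨q, hqU, rfl⟩
        · rw [← List.map_append] at ha
          obtain ⟨z, hz, rfl⟩ := List.mem_map.1 ha
          exact ⟨z, hAB z hz, rfl⟩
      rw [hGv p q hnq]
      have h1 := h.near_pol (A := A.map cc) (B := cc q :: B.map cc) hN2 (by
        rw [List.length_cons, List.length_map, List.length_map]; omega)
      rw [PC, List.map_cons, h.zr_cc hq0, h.map_zr_cc (fun z hz => h0 z (by simp [hz])),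
        h.map_zr_cc (fun z hz => h0 z (by simp [hz]))] at h1
      rw [← h1, ← ev_cons]
      rfl
  have h2 := hlim p q
  rw [hl] at h2
  refine h2.congr' ?_
  filter_upwards [hDne p q] with R hR
  rw [key, mul_div_cancel_left₀ _ hR]

/-- the quadratic form of the two far lines -/
def VV (ν : ℂ) (n : ℕ) (a b : ℂ) : ℂ := (a * b) ^ (2 * n) * ((a + b) ^ 2 + (2 - rt) * ν * (a * b))

lemma exp_log_half {a : ℂ} (ha : a ≠ 0) :
    Complex.exp (-2 * Complex.I * (Complex.I / 2 * Complex.log a)) = a := by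
  have : -2 * Complex.I * (Complex.I / 2 * Complex.log a) = Complex.log a := by
    linear_combination (-Complex.log a) * Complex.I_mul_I
  rw [this, Complex.exp_log ha]

/-- two far lines, values of `cos 2z` -/
lemma Near.joint_near (h : Near U W P) (hJ : h.Joint ν) (n : ℕ) : ∃ V : Set ℂ, V.Infinite ∧
    ∀ A B : List ℂ, A.length + B.length = n → (∀ c ∈ A ++ B, c ∈ V) → (A ++ B).Nodup →
    ∀ a b : ℂ, a ≠ 0 → b ≠ 0 →
    Tendsto (fun R : ℝ => MvPolynomial.eval (fun k => sR R ^ w2 k *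
        pt ((a + (4 * a)⁻¹ * (sR R)⁻¹ * (sR R)⁻¹) :: (b + (4 * b)⁻¹ * (sR R)⁻¹ * (sR R)⁻¹) ::
          (A ++ B)) k) (h.F2 A.length B.length) / sR R ^ (4 * n + 2)) atTop
      (𝓝 (VV ν n a b * h.Wt A B)) := by
  obtain ⟨V, hVo, hVn, hVU, hV⟩ := hJ n
  have hV0 : V ⊆ U 0 := hVU.trans (h.sub (Nat.zero_le _))
  have hVi : V.Infinite := by
    obtain ⟨z, hz⟩ := hVn
    exact infinite_of_mem_nhds z (hVo.mem_nhds hz)
  refine ⟨cc '' V, Set.Infinite.image (h.inj.mono hV0) hVi, fun A B hl hAB hnd a b ha hb => ?_⟩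
  have hmem : ∀ c ∈ A ++ B, c ∈ cc '' U n := fun c hc => by
    obtain ⟨z, hz, rfl⟩ := hAB c hc
    exact ⟨z, hVU hz, rfl⟩
  have hN : NrC U n (A ++ B) := ⟨hmem, hnd⟩
  have hmV : ∀ z ∈ A.map (zr U) ++ B.map (zr U), z ∈ V := by
    intro z hz
    rw [← List.map_append] at hz
    obtain ⟨c, hc, rfl⟩ := List.mem_map.1 hz
    obtain ⟨w, hw, rfl⟩ := hAB c hc
    rw [h.zr_cc (hV0 hw)]
    exact hw
  have h1 := hV (A.map (zr U)) (B.map (zr U)) (by simpa using hl) hmV
    (h.nr2 hN hl.le).2 (Complex.I / 2 * Complex.log a) (Complex.I / 2 * Complex.log b)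
  rw [exp_log_half ha, exp_log_half hb, ← h.wt_near hN hl.le,
    h.map_cc_zr (fun c hc => hmem c (List.mem_append_left _ hc)),
    h.map_cc_zr (fun c hc => hmem c (List.mem_append_right _ hc))] at h1
  refine h1.congr (fun R => ?_)
  rw [cc_shift, cc_shift, exp_log_half ha, exp_log_half hb, w2_scale, ← h.ev_F2]
  rfl

lemma tendsto_pert (a : ℂ) :
    Tendsto (fun R : ℝ => a + (4 * a)⁻¹ * (sR R)⁻¹ * (sR R)⁻¹) atTop (𝓝 a) := by
  have := (tendsto_const_nhds (x := a) (f := (atTop : Filter ℝ))).add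
    (((tendsto_const_nhds (x := (4 * a)⁻¹)).mul sR_inv).mul sR_inv)
  simpa using this

lemma tendsto_pt_const {ι : Type*} {l : Filter ι} (L : List ℂ) :
    Tendsto (fun _ : ι => pt L) l (𝓝 (pt L)) := tendsto_const_nhds

/-- **the components in the two far lines** -/
theorem Near.comp2 (h : Near U W P) (hJ : h.Joint ν) (A B : List ℂ) :
    (∀ N, 4 * (A.length + B.length) + 2 < N → ∀ a b : ℂ,
      (swp w2 (h.F2 A.length B.length) (pt (a :: b :: (A ++ B)))).coeff N = 0) ∧
    (∀ a b : ℂ, (swp w2 (h.F2 A.length B.length) (pt (a :: b :: (A ++ B)))).coeff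
        (4 * (A.length + B.length) + 2) = VV ν (A.length + B.length) a b * h.Wt A B) := by
  set m := A.length with hm
  set M := B.length with hM
  obtain ⟨V, hVi, hV⟩ := h.joint_near hJ (m + M)
  have hV0 : (V \ {0}).Infinite := hVi.sdiff (Set.finite_singleton 0)
  set F := h.F2 m M with hF
  have hne : ∀ a : ℂ, a ≠ 0 → ∀ᶠ R : ℝ in atTop, a + (4 * a)⁻¹ * (sR R)⁻¹ * (sR R)⁻¹ ≠ 0 :=
    fun a ha => (tendsto_pert a).eventually_ne ha
  have hx : ∀ (a b : ℂ) (L : List ℂ), Tendsto (fun R : ℝ => pt ((a + (4 * a)⁻¹ * (sR R)⁻¹ *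
      (sR R)⁻¹) :: (b + (4 * b)⁻¹ * (sR R)⁻¹ * (sR R)⁻¹) :: L)) atTop (𝓝 (pt (a :: b :: L))) :=
    fun a b L => tendsto_pt_cons (tendsto_pert a) (tendsto_pt_cons (tendsto_pert b)
      (tendsto_pt_const _))
  have hcase : ∀ L : List ℂ, L.length = m + M + 2 → (∀ c ∈ L, c ∈ V \ {0}) → L.Nodup →
      ∃ (a b : ℂ) (A' B' : List ℂ), L = a :: b :: (A' ++ B') ∧ a ≠ 0 ∧ b ≠ 0 ∧
        A'.length = m ∧ B'.length = M ∧ (∀ c ∈ A' ++ B', c ∈ V) ∧ (A' ++ B').Nodup := by
    intro L hL hLU hLn
    rcases L with _ | ⟨a, L⟩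
    · simp at hL
    rcases L with _ | ⟨b, L⟩
    · simp at hL
    have hL' : L.length = m + M := by simpa using hL
    obtain ⟨A', B', hA, hB, rfl⟩ := split_len hL'
    refine ⟨a, b, A', B', rfl, (hLU a (by simp)).2, (hLU b (by simp)).2, hA, hB,
      fun c hc => (hLU c (by simp [List.mem_append.1 hc])).1, ?_⟩
    exact (List.nodup_cons.1 (List.nodup_cons.1 hLn).2).2
  have lim : ∀ (N : ℕ) (L : List ℂ), (∀ j, N < j → ∀ a b : ℂ, a ≠ 0 → b ≠ 0 →
      (swp w2 F (pt (a :: b :: L))).coeff j = 0) → ∀ a b : ℂ, a ≠ 0 → b ≠ 0 →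
      Tendsto (fun R : ℝ => MvPolynomial.eval (fun k => sR R ^ w2 k *
        pt ((a + (4 * a)⁻¹ * (sR R)⁻¹ * (sR R)⁻¹) :: (b + (4 * b)⁻¹ * (sR R)⁻¹ * (sR R)⁻¹) ::
          L) k) F / sR R ^ N) atTop (𝓝 ((swp w2 F (pt (a :: b :: L))).coeff N)) := by
    intro N L hj a b ha hb
    refine lim_swp (Eventually.of_forall sR_ne) sR_inv (hx a b L) w2 F N (fun k hk => ?_)
    filter_upwards [hne a ha, hne b hb] with R h1 h2
    exact hj k hk _ _ h1 h2
  have near : ∀ A' B' : List ℂ, A'.length = m → B'.length = M → (∀ c ∈ A' ++ B', c ∈ V) →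
      (A' ++ B').Nodup → (∀ N, 4 * (m + M) + 2 < N → ∀ a b : ℂ, a ≠ 0 → b ≠ 0 →
        (swp w2 F (pt (a :: b :: (A' ++ B')))).coeff N = 0) ∧
      (∀ a b : ℂ, a ≠ 0 → b ≠ 0 → (swp w2 F (pt (a :: b :: (A' ++ B')))).coeff
        (4 * (m + M) + 2) = VV ν (m + M) a b * h.Wt A' B') := by
    intro A' B' hA hB hAB hnd
    have hl : ∀ a b : ℂ, a ≠ 0 → b ≠ 0 → _ := fun a b ha hb =>
      hV A' B' (by omega) hAB hnd a b ha hb
    simp only [hA, hB, ← hF] at hl
    have hz : ∀ N, 4 * (m + M) + 2 < N → ∀ a b : ℂ, a ≠ 0 → b ≠ 0 →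
        (swp w2 F (pt (a :: b :: (A' ++ B')))).coeff N = 0 := by
      refine descend (K := (sw w2 F).natDegree) ?_ ?_
      · intro k hk a b _ _
        exact Polynomial.coeff_eq_zero_of_natDegree_lt (lt_of_le_of_lt (swp_natDegree _ _ _) hk)
      · intro N hN' hj a b ha hb
        have h1 := lim N (A' ++ B') hj a b ha hb
        have h2 := (hl a b ha hb).mul (sR_inv.pow (N - (4 * (m + M) + 2)))
        rw [zero_pow (by omega), mul_zero] at h2
        refine tendsto_nhds_unique h1 (h2.congr (fun R => ?_))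
        have e : sR R ^ N = sR R ^ (4 * (m + M) + 2) * sR R ^ (N - (4 * (m + M) + 2)) := by
          rw [← pow_add]; congr 1; omega
        rw [e, inv_pow]
        have := sR_ne R
        field_simp
    refine ⟨hz, fun a b ha hb => ?_⟩
    exact tendsto_nhds_unique (lim _ _ hz a b ha hb) (hl a b ha hb)
  constructor
  · intro N hN a b
    have := PF.ext (n := m + M + 2) hV0
      (PF.ev _ ((sw w2 F).coeff N)) (PF.const _ 0)
      (fun L hL hLU hLn => by
        obtain ⟨a', b', A', B', rfl, ha, hb, hA, hB, hc, hd⟩ := hcase L hL hLU hLn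
        have := (near A' B' hA hB hc hd).1 N hN a' b' ha hb
        rw [swp_coeff] at this
        exact this)
      (a :: b :: (A ++ B)) (by simp [hm, hM])
    rw [swp_coeff]
    exact this
  · intro a b
    have hPF : PF (m + M + 2) (fun L => VV ν (m + M) (ev L (MvPolynomial.X 0))
        (ev L (MvPolynomial.X 1)) * ev L.tail.tail (h.F m M)) := by
      refine PF.mul ?_ ?_
      · unfold VV
        have h0 := PF.ev (m + M + 2) (MvPolynomial.X 0)
        have h1 := PF.ev (m + M + 2) (MvPolynomial.X 1)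
        exact ((h0.mul h1).pow _).mul (((h0.add h1).pow 2).add
          ((PF.const _ ((2 - rt) * ν)).mul (h0.mul h1)))
      · refine PF.rename (k := m + M) (PF.ev _ _) (fun j => j + 2) (fun L => L.tail.tail)
          (fun L hL => ?_)
        rcases L with _ | ⟨x, L⟩
        · simp at hL
        rcases L with _ | ⟨y, L⟩
        · simp at hL
        refine ⟨by simpa using hL, fun j => rfl⟩
    have := PF.ext (n := m + M + 2) hV0
      (PF.ev _ ((sw w2 F).coeff (4 * (m + M) + 2))) hPF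
      (fun L hL hLU hLn => by
        obtain ⟨a', b', A', B', rfl, ha, hb, hA, hB, hc, hd⟩ := hcase L hL hLU hLn
        have := (near A' B' hA hB hc hd).2 a' b' ha hb
        rw [swp_coeff] at this
        rw [Near.Wt, hA, hB] at this
        rw [show ev (a' :: b' :: (A' ++ B')) (MvPolynomial.X 0) = a' by simp [ev],
          show ev (a' :: b' :: (A' ++ B')) (MvPolynomial.X 1) = b' by simp [ev, pt]]
        exact this)
      (a :: b :: (A ++ B)) (by simp [hm, hM])
    rw [show ev (a :: b :: (A ++ B)) (MvPolynomial.X 0) = a by simp [ev],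
          show ev (a :: b :: (A ++ B)) (MvPolynomial.X 1) = b by simp [ev, pt]] at this
    rw [swp_coeff]
    exact this

end NUMv

end
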