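import Pool.Agent.NUF.Mv.PF

/-!
# The relations of the strip function near the honeycomb point, and its polynomials
-/

open Polynomial Filter Topology

noncomputable section

namespace NUMv

/-- `cos 2z` -/
def cc (z : ℂ) : ℂ := Complex.cos (2 * z)

/-- `π / 8` -/
def el : ℂ := ((Real.pi / 8 : ℝ) : ℂ)

/-- `cos (k π / 8)` -/
def kc (k : ℕ) : ℂ := Complex.cos (k * el)

/-- `√2` -/
def rt : ℂ := ((Real.sqrt 2 : ℝ) : ℂ)

/-- distinct rapidities near the honeycomb point; how near they have to be depends on the number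
of lines -/
def Nr (U : ℕ → Set ℂ) (L : List ℂ) : Prop := (∀ a ∈ L, a ∈ U L.length) ∧ L.Nodup

/-- the factor of a crossing pair `q - 3λ, q`; `L` = the values `cos 2z` of the other lines -/
def crossF (q : ℂ) (L : List ℂ) : ℂ :=
  (cc (q - 3 * el) + cc q + (kc 1 - kc 3)) *
    (L.map (fun c => (c - cc (q + 3 * el)) * (c - cc (q - 6 * el)))).prod

/-- the factor of the fusion of `q + 2λ, q` to `q + λ` -/
def fuseF (q : ℂ) (L : List ℂ) : ℂ :=
  rt * (cc (q + el) + kc 3) * (L.map (fun c => cc (q + el) + c)).prod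

/-- the factor of the trivial line -/
def trivF (L : List ℂ) : ℂ := (L.map (fun c => c + kc 1)).prod

/-- The relations of `W = Q² Z` (`n` lines: rapidities in `U n`), `P A B` = the polynomial of one
more line of the group `A`. -/
structure Near (U : ℕ → Set ℂ) (W : List ℂ → List ℂ → ℂ) (P : List ℂ → List ℂ → ℂ[X]) :
    Prop where
  isOpen : ∀ n, IsOpen (U n)
  nonempty : ∀ n, (U n).Nonempty
  anti : ∀ n, U (n + 1) ⊆ U n
  inj : Set.InjOn cc (U 0)
  nil : W [] [] = 1
  perm : ∀ {A A' B : List ℂ}, A.Perm A' → Nr U (A ++ B) → W A B = W A' B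
  roles : ∀ {A B : List ℂ}, Nr U (A ++ B) → W A B = W B A
  deg : ∀ {A B : List ℂ}, Nr U (A ++ B) → (P A B).natDegree ≤ 2 * (A.length + B.length)
  lead : ∀ {A B : List ℂ}, Nr U (A ++ B) →
    (P A B).coeff (2 * (A.length + B.length)) = W A B
  val : ∀ {t : ℂ} {A B : List ℂ}, Nr U (t :: (A ++ B)) → W (t :: A) B = (P A B).eval (cc t)
  triv : ∀ {A B : List ℂ}, Nr U (A ++ B) →
    (P A B).eval (kc 3) = trivF ((A ++ B).map cc) ^ 2 * W A B
  cross : ∀ {q : ℂ} {A B : List ℂ}, Nr U (q :: (A ++ B)) →
    (P (q :: A) B).eval (cc (q - 3 * el)) = crossF q ((A ++ B).map cc) ^ 2 * W A B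
  fuse : ∀ {A B : List ℂ}, Nr U (A ++ B) → ∃ S : Set ℂ, S.Countable ∧
    ∀ q, q ∉ S → Nr U (q :: (A ++ B)) →
      (P (q :: A) B).eval (cc (q + 2 * el)) =
        fuseF q ((A ++ B).map cc) ^ 2 * (P A B).eval (cc (q + el))

variable {U : ℕ → Set ℂ} {W : List ℂ → List ℂ → ℂ} {P : List ℂ → List ℂ → ℂ[X]}

lemma Near.sub (h : Near U W P) {m n : ℕ} (hmn : m ≤ n) : U n ⊆ U m :=
  antitone_nat_of_succ_le h.anti hmn

lemma Nr.perm {L L' : List ℂ} (h : L.Perm L') (hL : Nr U L) : Nr U L' :=
  ⟨fun a ha => by rw [← h.length_eq]; exact hL.1 a (h.mem_iff.2 ha), h.nodup_iff.1 hL.2⟩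

/-- a rapidity with given `cos 2z` -/
def zr (U : ℕ → Set ℂ) : ℂ → ℂ := Function.invFunOn cc (U 0)

lemma Near.zr_cc (h : Near U W P) {z : ℂ} (hz : z ∈ U 0) : zr U (cc z) = z :=
  h.inj (Function.invFunOn_mem ⟨z, hz, rfl⟩) hz (Function.invFunOn_eq ⟨z, hz, rfl⟩)

lemma Near.zr_mem (h : Near U W P) {n : ℕ} {c : ℂ} (hc : c ∈ cc '' U n) : zr U c ∈ U n := by
  obtain ⟨z, hz, rfl⟩ := hc
  rw [h.zr_cc (h.sub (Nat.zero_le n) hz)]
  exact hz

lemma Near.cc_zr (h : Near U W P) {n : ℕ} {c : ℂ} (hc : c ∈ cc '' U n) : cc (zr U c) = c := by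
  obtain ⟨z, hz, rfl⟩ := hc
  rw [h.zr_cc (h.sub (Nat.zero_le n) hz)]

lemma Near.nr_map_zr (h : Near U W P) {N : ℕ} {L : List ℂ} (hL : ∀ c ∈ L, c ∈ cc '' U N)
    (hn : L.Nodup) (hl : L.length ≤ N) : Nr U (L.map (zr U)) := by
  constructor
  · intro a ha
    obtain ⟨c, hc, rfl⟩ := List.mem_map.1 ha
    rw [List.length_map]
    exact h.sub hl (h.zr_mem (hL c hc))
  · refine List.Nodup.map_on ?_ hn
    intro c hc d hd he
    rw [← h.cc_zr (hL c hc), ← h.cc_zr (hL d hd), he]

lemma Near.map_cc_zr (h : Near U W P) {N : ℕ} {L : List ℂ} (hL : ∀ c ∈ L, c ∈ cc '' U N) :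
    (L.map (zr U)).map cc = L := by
  rw [List.map_map]
  conv_rhs => rw [← List.map_id L]
  exact List.map_congr_left (fun c hc => h.cc_zr (hL c hc))

lemma Near.map_zr_cc (h : Near U W P) {L : List ℂ} (hL : ∀ c ∈ L, c ∈ U 0) :
    (L.map cc).map (zr U) = L := by
  rw [List.map_map]
  conv_rhs => rw [← List.map_id L]
  exact List.map_congr_left (fun c hc => h.zr_cc (hL c hc))

lemma Near.infinite (h : Near U W P) (n : ℕ) : (cc '' U n).Infinite := by
  refine Set.Infinite.image (h.inj.mono (h.sub (Nat.zero_le n))) ?_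
  obtain ⟨z, hz⟩ := h.nonempty n
  exact infinite_of_mem_nhds z ((h.isOpen n).mem_nhds hz)

lemma Near.sepA (h : Near U W P) {A₁ A₂ B : List ℂ} {t : ℂ}
    (hN : Nr U (t :: ((A₁ ++ A₂) ++ B))) :
    W (A₁ ++ t :: A₂) B = (P (A₁ ++ A₂) B).eval (cc t) := by
  have hp : (A₁ ++ t :: A₂).Perm (t :: (A₁ ++ A₂)) := List.perm_middle
  rw [h.perm hp (hN.perm ?_), h.val hN]
  rw [← List.cons_append]
  exact (hp.symm.append_right B)

lemma Near.sepB (h : Near U W P) {B₁ B₂ A : List ℂ} {t : ℂ}
    (hN : Nr U (t :: ((B₁ ++ B₂) ++ A))) :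
    W A (B₁ ++ t :: B₂) = (P (B₁ ++ B₂) A).eval (cc t) := by
  rw [← h.sepA hN]
  refine h.roles (hN.perm ?_)
  have hp : (B₁ ++ t :: B₂).Perm (t :: (B₁ ++ B₂)) := List.perm_middle
  rw [← List.cons_append]
  exact (hp.symm.append_right A).trans List.perm_append_comm

theorem Near.exists_F (h : Near U W P) (m M : ℕ) : ∃ F : MvPolynomial ℕ ℂ,
    ∀ A B : List ℂ, A.length = m → B.length = M → Nr U (A ++ B) →
      W A B = ev ((A ++ B).map cc) F := by
  obtain ⟨F, hF⟩ := exists_mv (m + M) (h.infinite (m + M)) (d := 2 * (m + M))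
    (fun cl => W ((cl.take m).map (zr U)) ((cl.drop m).map (zr U))) (by
      intro A₁ A₂ hn hA hnd
      by_cases hm : A₁.length < m
      · set k := m - A₁.length - 1 with hk
        have hN : ∀ t ∈ cc '' U (m + M), t ∉ A₁ ++ A₂ → Nr U (zr U t ::
            ((A₁.map (zr U) ++ (A₂.take k).map (zr U)) ++ (A₂.drop k).map (zr U))) := by
          intro t ht htA
          have := h.nr_map_zr (N := m + M) (L := t :: (A₁ ++ A₂)) (by
            intro c hc
            rcases List.mem_cons.1 hc with rfl | hc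
            · exact ht
            · exact hA c hc) (List.nodup_cons.2 ⟨htA, hnd⟩) (by simp; omega)
          rw [List.map_cons, List.map_append] at this
          rw [List.append_assoc, ← List.map_append, List.take_append_drop]
          exact this
        refine ⟨P (A₁.map (zr U) ++ (A₂.take k).map (zr U)) ((A₂.drop k).map (zr U)), ?_,
          fun t ht htA => ?_⟩
        · have hn0 := h.nr_map_zr (N := m + M) hA hnd (by simp; omega)
          rw [List.map_append] at hn0
          refine (h.deg (by rw [List.append_assoc, ← List.map_append, List.take_append_drop]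
                            exact hn0)).trans ?_
          simp; omega
        · have e1 : (A₁ ++ t :: A₂).take m = A₁ ++ t :: A₂.take k := by
            rw [List.take_append]
            obtain ⟨j, hj⟩ : ∃ j, m - A₁.length = j + 1 := ⟨k, by omega⟩
            rw [hj, List.take_succ_cons, List.take_of_length_le (by omega)]
            congr 3; omega
          have e2 : (A₁ ++ t :: A₂).drop m = A₂.drop k := by
            rw [List.drop_append]
            obtain ⟨j, hj⟩ : ∃ j, m - A₁.length = j + 1 := ⟨k, by omega⟩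
            rw [hj, List.drop_succ_cons, List.drop_of_length_le (by omega)]
            simp only [List.nil_append]
            congr 1; omega
          rw [e1, e2, List.map_append, List.map_cons, h.sepA (hN t ht htA), h.cc_zr ht]
      · have hm' : m ≤ A₁.length := by omega
        have hN : ∀ t ∈ cc '' U (m + M), t ∉ A₁ ++ A₂ → Nr U (zr U t ::
            (((A₁.drop m).map (zr U) ++ A₂.map (zr U)) ++ (A₁.take m).map (zr U))) := by
          intro t ht htA
          have := h.nr_map_zr (N := m + M) (L := t :: (A₁ ++ A₂)) (by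
            intro c hc
            rcases List.mem_cons.1 hc with rfl | hc
            · exact ht
            · exact hA c hc) (List.nodup_cons.2 ⟨htA, hnd⟩) (by simp; omega)
          rw [List.map_cons, List.map_append] at this
          refine this.perm (List.Perm.cons _ ?_)
          conv_lhs => rw [← List.take_append_drop m A₁, List.map_append, List.append_assoc]
          exact List.perm_append_comm
        refine ⟨P ((A₁.drop m).map (zr U) ++ A₂.map (zr U)) ((A₁.take m).map (zr U)), ?_,
          fun t ht htA => ?_⟩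
        · have hn0 := h.nr_map_zr (N := m + M) hA hnd (by simp; omega)
          rw [List.map_append] at hn0
          refine (h.deg (hn0.perm ?_)).trans ?_
          · conv_lhs => rw [← List.take_append_drop m A₁, List.map_append, List.append_assoc]
            exact List.perm_append_comm
          · simp; omega
        · have e1 : (A₁ ++ t :: A₂).take m = A₁.take m := by
            rw [List.take_append_of_le_length hm']
          have e2 : (A₁ ++ t :: A₂).drop m = A₁.drop m ++ t :: A₂ := by
            rw [List.drop_append_of_le_length hm']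
          rw [e1, e2, List.map_append, List.map_cons, h.sepB (hN t ht htA), h.cc_zr ht])
  refine ⟨F, fun A B hA hB hN => ?_⟩
  have hl : (A ++ B).length = m + M := by simp [hA, hB]
  have hmem : ∀ c ∈ (A ++ B).map cc, c ∈ cc '' U (m + M) := by
    intro c hc
    obtain ⟨z, hz, rfl⟩ := List.mem_map.1 hc
    have := hN.1 z hz
    rw [hl] at this
    exact ⟨z, this, rfl⟩
  have h0 : ∀ z ∈ A ++ B, z ∈ U 0 := fun z hz => h.sub (Nat.zero_le _) (hN.1 z hz)
  have := hF ((A ++ B).map cc) (by simp [hA, hB]) hmem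
    (List.Nodup.map_on (fun x hx y hy hxy => h.inj (h0 x hx) (h0 y hy) hxy) hN.2)
  rw [← this]
  have e1 : ((A ++ B).map cc).take m = A.map cc := by
    rw [List.map_append, List.take_append_of_le_length (by simp [hA]),
      List.take_of_length_le (by simp [hA])]
  have e2 : ((A ++ B).map cc).drop m = B.map cc := by
    rw [List.map_append, List.drop_append, List.drop_of_length_le (by simp [hA])]
    simp [hA]
  rw [e1, e2, h.map_zr_cc (fun c hc => h0 c (List.mem_append_left _ hc)),
    h.map_zr_cc (fun c hc => h0 c (List.mem_append_right _ hc))]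

/-- the polynomials -/
def Near.F (h : Near U W P) (m M : ℕ) : MvPolynomial ℕ ℂ := (h.exists_F m M).choose

/-- the strip function of arbitrary values of `cos 2z` -/
def Near.Wt (h : Near U W P) (A B : List ℂ) : ℂ := ev (A ++ B) (h.F A.length B.length)

lemma Near.wt_eq (h : Near U W P) {A B : List ℂ} (hN : Nr U (A ++ B)) :
    h.Wt (A.map cc) (B.map cc) = W A B := by
  have := (h.exists_F A.length B.length).choose_spec A B rfl rfl hN
  rw [this, Near.Wt, List.map_append]
  simp only [List.length_map]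
  rfl

end NUMv

end
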