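import Pool.Agent.NUF.Mv.Ev

/-!
# Polynomial functions of the entries of lists of a given length
-/

open Polynomial

noncomputable section

namespace NUMv

/-- `f` is a polynomial function of the entries of the lists of length `n` -/
def PF (n : ℕ) (f : List ℂ → ℂ) : Prop :=
  ∃ G : MvPolynomial ℕ ℂ, ∀ L : List ℂ, L.length = n → f L = ev L G

lemma PF.const (n : ℕ) (a : ℂ) : PF n (fun _ => a) := ⟨MvPolynomial.C a, fun L _ => by simp [ev]⟩

lemma PF.ev (n : ℕ) (G : MvPolynomial ℕ ℂ) : PF n (fun L => NUMv.ev L G) := ⟨G, fun _ _ => rfl⟩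

lemma PF.add {n : ℕ} {f g : List ℂ → ℂ} (hf : PF n f) (hg : PF n g) :
    PF n (fun L => f L + g L) := by
  obtain ⟨F, hF⟩ := hf
  obtain ⟨G, hG⟩ := hg
  exact ⟨F + G, fun L hL => by beta_reduce; rw [hF L hL, hG L hL]; simp [NUMv.ev]⟩

lemma PF.sub {n : ℕ} {f g : List ℂ → ℂ} (hf : PF n f) (hg : PF n g) :
    PF n (fun L => f L - g L) := by
  obtain ⟨F, hF⟩ := hf
  obtain ⟨G, hG⟩ := hg
  exact ⟨F - G, fun L hL => by beta_reduce; rw [hF L hL, hG L hL]; simp [NUMv.ev]⟩

lemma PF.mul {n : ℕ} {f g : List ℂ → ℂ} (hf : PF n f) (hg : PF n g) :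
    PF n (fun L => f L * g L) := by
  obtain ⟨F, hF⟩ := hf
  obtain ⟨G, hG⟩ := hg
  exact ⟨F * G, fun L hL => by beta_reduce; rw [hF L hL, hG L hL]; simp [NUMv.ev]⟩

lemma PF.pow {n : ℕ} {f : List ℂ → ℂ} (hf : PF n f) (k : ℕ) : PF n (fun L => f L ^ k) := by
  obtain ⟨F, hF⟩ := hf
  exact ⟨F ^ k, fun L hL => by beta_reduce; rw [hF L hL]; simp [NUMv.ev]⟩

lemma PF.congr {n : ℕ} {f g : List ℂ → ℂ} (hf : PF n f)
    (h : ∀ L : List ℂ, L.length = n → g L = f L) : PF n g := by
  obtain ⟨F, hF⟩ := hf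
  exact ⟨F, fun L hL => by rw [h L hL, hF L hL]⟩

/-- fixing the first entry -/
lemma PF.cons {n : ℕ} {f : List ℂ → ℂ} (a : ℂ) (hf : PF (n + 1) f) :
    PF n (fun L => f (a :: L)) := by
  obtain ⟨F, hF⟩ := hf
  refine ⟨(th F).eval (MvPolynomial.C a), fun L hL => ?_⟩
  beta_reduce
  rw [hF _ (by simp [hL]), ev_cons, pol, NUMv.ev, Polynomial.eval_map]
  have := Polynomial.hom_eval₂ (th F) (RingHom.id (MvPolynomial ℕ ℂ))
    (MvPolynomial.eval (pt L)) (MvPolynomial.C a)
  rw [Polynomial.eval₂_id] at this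
  rw [this]
  simp

/-- a product over the entries -/
lemma PF.prod (n : ℕ) (Q : ℂ[X]) : PF n (fun L => (L.map (fun c => Q.eval c)).prod) := by
  refine ⟨∏ k ∈ Finset.range n, Polynomial.aeval (MvPolynomial.X k : MvPolynomial ℕ ℂ) Q,
    fun L hL => ?_⟩
  have e : ∀ k, MvPolynomial.eval (pt L)
      (Polynomial.aeval (MvPolynomial.X k : MvPolynomial ℕ ℂ) Q) = Q.eval (pt L k) := by
    intro k
    have := Polynomial.hom_eval₂ Q (algebraMap ℂ (MvPolynomial ℕ ℂ))
      (MvPolynomial.eval (pt L)) (MvPolynomial.X k)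
    rw [Polynomial.aeval_def, this, MvPolynomial.eval_X, Polynomial.eval₂_eq_eval_map]
    congr 1
    have h2 : (MvPolynomial.eval (pt L)).comp (algebraMap ℂ (MvPolynomial ℕ ℂ)) =
        RingHom.id ℂ := by
      ext a; simp [MvPolynomial.algebraMap_eq]
    rw [h2, Polynomial.map_id]
  rw [NUMv.ev, map_prod]
  simp only [e]
  subst hL
  induction L with
  | nil => simp
  | cons a L ih =>
    rw [List.map_cons, List.prod_cons, List.length_cons, Finset.prod_range_succ', mul_comm]
    congr 1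
    rw [ih (fun k => by
      have := Polynomial.hom_eval₂ Q (algebraMap ℂ (MvPolynomial ℕ ℂ))
        (MvPolynomial.eval (pt L)) (MvPolynomial.X k)
      rw [Polynomial.aeval_def, this, MvPolynomial.eval_X, Polynomial.eval₂_eq_eval_map]
      congr 1
      have h2 : (MvPolynomial.eval (pt L)).comp (algebraMap ℂ (MvPolynomial ℕ ℂ)) =
          RingHom.id ℂ := by
        ext a; simp [MvPolynomial.algebraMap_eq]
      rw [h2, Polynomial.map_id])]
    rfl

/-- renaming of the variables by a map which is correct on lists of length `n` -/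
lemma PF.rename {n k : ℕ} {f : List ℂ → ℂ} (hf : PF k f) (r : ℕ → ℕ) (φ : List ℂ → List ℂ)
    (hφ : ∀ L : List ℂ, L.length = n → (φ L).length = k ∧ ∀ j, pt (φ L) j = pt L (r j)) :
    PF n (fun L => f (φ L)) := by
  obtain ⟨F, hF⟩ := hf
  refine ⟨MvPolynomial.rename r F, fun L hL => ?_⟩
  obtain ⟨h1, h2⟩ := hφ L hL
  beta_reduce
  rw [hF _ h1, NUMv.ev, NUMv.ev, MvPolynomial.eval_rename]
  congr 2
  funext j
  exact h2 j

/-- polynomial functions which agree at lists of distinct elements of an infinite set agree -/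
lemma PF.ext {U : Set ℂ} (hU : U.Infinite) {n : ℕ} {f g : List ℂ → ℂ} (hf : PF n f)
    (hg : PF n g)
    (h : ∀ A : List ℂ, A.length = n → (∀ a ∈ A, a ∈ U) → A.Nodup → f A = g A)
    (A : List ℂ) (hA : A.length = n) : f A = g A := by
  obtain ⟨F, hF⟩ := hf
  obtain ⟨G, hG⟩ := hg
  rw [hF A hA, hG A hA]
  exact ev_eq_ext hU (fun B hB hBU hBn => by rw [← hF B hB, ← hG B hB, h B hB hBU hBn]) A hA

lemma _root_.Differentiable.congr_fun' {f g : ℂ → ℂ} (hf : Differentiable ℂ f)
    (h : ∀ z, g z = f z) : Differentiable ℂ g := by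
  have : g = f := funext h
  rw [this]; exact hf

/-- differentiability of a polynomial along differentiable coordinates -/
lemma differentiable_eval (F : MvPolynomial ℕ ℂ) (x : ℂ → ℕ → ℂ)
    (hx : ∀ k, Differentiable ℂ (fun q => x q k)) :
    Differentiable ℂ (fun q => MvPolynomial.eval (x q) F) := by
  induction F using MvPolynomial.induction_on with
  | C a => simp
  | add p q hp hq =>
    have := hp.add hq
    refine this.congr_fun' (fun z => ?_)
    simp
  | mul_X p k hp =>
    have := hp.mul (hx k)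
    refine this.congr_fun' (fun z => ?_)
    simp

lemma differentiable_ev_cons (F : MvPolynomial ℕ ℂ) (a : ℂ → ℂ) (ha : Differentiable ℂ a)
    (L : List ℂ) : Differentiable ℂ (fun q => ev (a q :: L) F) := by
  refine differentiable_eval F (fun q => pt (a q :: L)) (fun k => ?_)
  cases k with
  | zero => simpa using ha
  | succ k => simp

lemma differentiable_ev_cons2 (F : MvPolynomial ℕ ℂ) (a b : ℂ → ℂ) (ha : Differentiable ℂ a)
    (hb : Differentiable ℂ b) (L : List ℂ) :
    Differentiable ℂ (fun q => ev (a q :: b q :: L) F) := by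
  refine differentiable_eval F (fun q => pt (a q :: b q :: L)) (fun k => ?_)
  cases k with
  | zero => simpa using ha
  | succ k => cases k with
    | zero => simpa using hb
    | succ k => simp

/-- identity theorem for entire functions -/
lemma entire_ext {U : Set ℂ} (hU : IsOpen U) (hne : U.Nonempty) {f g : ℂ → ℂ}
    (hf : Differentiable ℂ f) (hg : Differentiable ℂ g) (h : ∀ z ∈ U, f z = g z) (z : ℂ) :
    f z = g z := by
  obtain ⟨z₀, hz₀⟩ := hne
  have hf' : AnalyticOnNhd ℂ f Set.univ := fun z _ => hf.analyticAt z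
  have hg' : AnalyticOnNhd ℂ g Set.univ := fun z _ => hg.analyticAt z
  have := hf'.eq_of_eventuallyEq hg' (z₀ := z₀)
    (Filter.eventuallyEq_iff_exists_mem.2 ⟨U, hU.mem_nhds hz₀, h⟩)
  exact congrFun this z

end NUMv

end
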