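import Pool.Agent.NUF.Mv.Comp

/-!
# The homogeneous components of the strip function
-/

open Polynomial Filter Topology

noncomputable section

namespace NUMv

variable {U : ℕ → Set ℂ} {W : List ℂ → List ℂ → ℂ} {P : List ℂ → List ℂ → ℂ[X]}

/-- the strip function of `s A, s B` as a polynomial in `s` -/
def Near.sc (h : Near U W P) (A B : List ℂ) : ℂ[X] := scp (h.F A.length B.length) (A ++ B)

lemma Near.sc_eval (h : Near U W P) (A B : List ℂ) (s : ℂ) :
    (h.sc A B).eval s = h.Wt (A.map (s * ·)) (B.map (s * ·)) := by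
  rw [Near.sc, scp_eval, List.map_append, Near.Wt]
  simp only [List.length_map]

lemma Near.sc_perm (h : Near U W P) {A A' : List ℂ} (B : List ℂ) (hp : A.Perm A') :
    h.sc A B = h.sc A' B :=
  Polynomial.funext fun s => by rw [h.sc_eval, h.sc_eval, h.wt_perm _ (hp.map _)]

lemma Near.sc_roles (h : Near U W P) (A B : List ℂ) : h.sc A B = h.sc B A :=
  Polynomial.funext fun s => by rw [h.sc_eval, h.sc_eval, h.wt_roles]

lemma Near.sc_cons (h : Near U W P) (t : ℂ) (A B : List ℂ) : h.sc (t :: A) B =
    ∑ j ∈ Finset.range (2 * (A.length + B.length) + 1), C (t ^ j) *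
      (X ^ j * scp ((th (h.F (A.length + 1) B.length)).coeff j) (A ++ B)) := by
  refine Polynomial.funext fun s => ?_
  rw [h.sc_eval, List.map_cons, h.wt_val, Polynomial.eval_eq_sum_range'
    (n := 2 * (A.length + B.length) + 1), Polynomial.eval_finsetSum]
  · refine Finset.sum_congr rfl fun j _ => ?_
    rw [coeff_pol, eval_mul, eval_C, eval_mul, eval_pow, eval_X, scp_eval, ← List.map_append]
    simp only [List.length_map]
    ring
  · have := h.wt_deg (A.map (s * ·)) (B.map (s * ·))
    simp only [List.length_map] at this ⊢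
    omega

lemma Near.scp_lead (h : Near U W P) (A B : List ℂ) :
    scp ((th (h.F (A.length + 1) B.length)).coeff (2 * (A.length + B.length))) (A ++ B) =
      h.sc A B := by
  refine Polynomial.funext fun s => ?_
  have := h.wt_lead (A.map (s * ·)) (B.map (s * ·))
  rw [coeff_pol] at this
  simp only [List.length_map] at this
  rw [h.sc_eval, scp_eval, List.map_append, this]

/-- the components as polynomials of the first entry -/
theorem Near.sc_poly (h : Near U W P) (A B : List ℂ) (k : ℕ) : ∃ Q : ℂ[X],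
    Q.natDegree ≤ 2 * (A.length + B.length) ∧
    Q.coeff (2 * (A.length + B.length)) =
      (X ^ (2 * (A.length + B.length)) * h.sc A B).coeff k ∧
    ∀ t, (h.sc (t :: A) B).coeff k = Q.eval t := by
  refine ⟨∑ j ∈ Finset.range (2 * (A.length + B.length) + 1),
    C ((X ^ j * scp ((th (h.F (A.length + 1) B.length)).coeff j) (A ++ B)).coeff k) * X ^ j,
    ?_, ?_, fun t => ?_⟩
  · refine Polynomial.natDegree_sum_le_of_forall_le _ _ fun j hj => ?_
    refine (Polynomial.natDegree_C_mul_X_pow_le _ _).trans ?_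
    have := Finset.mem_range.1 hj
    omega
  · rw [Polynomial.finsetSum_coeff, Finset.sum_eq_single (2 * (A.length + B.length))]
    · rw [Polynomial.coeff_C_mul, Polynomial.coeff_X_pow, if_pos rfl, mul_one, h.scp_lead]
    · intro j _ hj
      rw [Polynomial.coeff_C_mul, Polynomial.coeff_X_pow, if_neg (Ne.symm hj), mul_zero]
    · intro hj
      exact absurd (Finset.mem_range.2 (by omega)) hj
  · rw [h.sc_cons, Polynomial.finsetSum_coeff, Polynomial.eval_finsetSum]
    refine Finset.sum_congr rfl fun j _ => ?_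
    rw [Polynomial.coeff_C_mul, eval_mul, eval_C, eval_pow, eval_X]
    ring

/-- the limit lemma for the strip function -/
theorem Near.lim (h : Near U W P) {ι : Type*} {l : Filter ι} {s : ι → ℂ}
    (hs0 : ∀ᶠ i in l, s i ≠ 0) (hs : Tendsto (fun i => (s i)⁻¹) l (𝓝 0))
    {x y : ι → List ℂ} {x₀ y₀ : List ℂ} (hxl : ∀ i, (x i).length = x₀.length)
    (hyl : ∀ i, (y i).length = y₀.length)
    (hx : Tendsto (fun i => pt (x i ++ y i)) l (𝓝 (pt (x₀ ++ y₀)))) (D : ℕ)
    (hD : ∀ k, D < k → ∀ᶠ i in l, (h.sc (x i) (y i)).coeff k = 0) :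
    Tendsto (fun i => h.Wt ((x i).map (s i * ·)) ((y i).map (s i * ·)) / s i ^ D) l
      (𝓝 ((h.sc x₀ y₀).coeff D)) := by
  have := lim_scp hs0 hs hx (h.F x₀.length y₀.length) D (fun k hk => by
    filter_upwards [hD k hk] with i hi
    rw [Near.sc, hxl, hyl] at hi
    exact hi)
  refine this.congr (fun i => ?_)
  rw [Near.Wt, List.map_append]
  simp only [List.length_map, hxl, hyl]

lemma descend {K D : ℕ} {p : ℕ → Prop} (hK : ∀ k, K < k → p k)
    (step : ∀ k, D < k → (∀ j, k < j → p j) → p k) : ∀ k, D < k → p k := by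
  suffices H : ∀ d k : ℕ, K < k + d → D < k → p k from fun k hk => H (K + 1) k (by omega) hk
  intro d
  induction d with
  | zero => intro k hk _; exact hK k (by omega)
  | succ d ih =>
    intro k hk hD
    exact step k hD (fun j hj => ih j (by omega) (by omega))

/-- `n (n - 1)` -/
def dg (n : ℕ) : ℕ := n * (n - 1)

lemma dg_succ (n : ℕ) : dg (n + 1) = dg n + 2 * n := by
  rcases n with _ | n
  · simp [dg]
  · simp only [dg, Nat.add_sub_cancel]; ring

lemma dg_succ2 (n : ℕ) : dg (n + 2) = dg n + (4 * n + 2) := by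
  rw [dg_succ, dg_succ]; ring

/-- all components above the degree `n (n - 1)` vanish -/
def Near.Van (h : Near U W P) (n : ℕ) : Prop :=
  ∀ A B : List ℂ, A.length + B.length = n → ∀ k, dg n < k → (h.sc A B).coeff k = 0

/-- the disc function -/
def Near.Wd (h : Near U W P) (A B : List ℂ) : ℂ :=
  (h.sc A B).coeff (dg (A.length + B.length))

lemma Near.Wd_nil (h : Near U W P) : h.Wd [] [] = 1 := by
  have := h.sc_eval [] [] 0
  rw [← Polynomial.coeff_zero_eq_eval_zero] at this
  simpa [Near.Wd, dg, h.wt_nil] using this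

lemma Near.Wd_perm (h : Near U W P) {A A' : List ℂ} (B : List ℂ) (hp : A.Perm A') :
    h.Wd A B = h.Wd A' B := by
  rw [Near.Wd, Near.Wd, h.sc_perm B hp, hp.length_eq]

lemma Near.Wd_roles (h : Near U W P) (A B : List ℂ) : h.Wd A B = h.Wd B A := by
  rw [Near.Wd, Near.Wd, h.sc_roles, add_comm]

end NUMv

end
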